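import Mathlib

/-!
# Taylor expansion, Rolle's theorem and near zeros for linear combinations of analytic functions
-/

set_option autoImplicit false

namespace Pool.Agent.X142.AN

open Finset Set

/-- `g j` is the `j`-th derivative of `g 0` on `[a,b]` -/
def Jet (a b : ℝ) (g : ℕ → ℝ → ℝ) : Prop :=
  ∀ j, ∀ x ∈ Icc a b, HasDerivAt (g j) (g (j + 1) x) x

lemma Jet.continuousOn {a b : ℝ} {g : ℕ → ℝ → ℝ} (h : Jet a b g) (j : ℕ) :
    ContinuousOn (g j) (Icc a b) := fun x hx => (h j x hx).continuousAt.continuousWithinAt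

lemma Jet.bound {a b : ℝ} {g : ℕ → ℝ → ℝ} (h : Jet a b g) (j : ℕ) :
    ∃ C : ℝ, 0 ≤ C ∧ ∀ x ∈ Icc a b, |g j x| ≤ C := by
  obtain ⟨C, hC⟩ := isCompact_Icc.exists_bound_of_continuousOn (h.continuousOn j)
  exact ⟨|C|, abs_nonneg _, fun x hx => (hC x hx).trans (le_abs_self C)⟩

lemma Jet.shift {a b : ℝ} {g : ℕ → ℝ → ℝ} (h : Jet a b g) : Jet a b (fun j => g (j + 1)) :=
  fun j x hx => h (j + 1) x hx

/-- Taylor's formula -/
theorem Jet.taylor {a b : ℝ} (T : ℕ) : ∀ {g : ℕ → ℝ → ℝ}, Jet a b g → ∀ {B : ℝ},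
    (∀ x ∈ Icc a b, |g T x| ≤ B) → ∀ x0 ∈ Icc a b, ∀ x ∈ Icc a b, x0 ≤ x →
      |g 0 x - ∑ m ∈ range T, g m x0 / (m.factorial : ℝ) * (x - x0) ^ m| ≤ B * (x - x0) ^ T := by
  induction T with
  | zero =>
    intro g _ B hB x0 _ x hx _
    simpa using hB x hx
  | succ T ih =>
    intro g hg B hB x0 hx0 x hx hle
    set e : ℝ → ℝ := fun y => g 0 y - ∑ m ∈ range (T + 1), g m x0 / (m.factorial : ℝ) * (y - x0) ^ m
      with he
    set e' : ℝ → ℝ := fun y => g 1 y - ∑ m ∈ range T, g (m + 1) x0 / (m.factorial : ℝ) * (y - x0) ^ m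
      with he'
    have hder : ∀ y ∈ Icc a b, HasDerivAt e (e' y) y := by
      intro y hy
      have h1 : HasDerivAt (fun y : ℝ => ∑ m ∈ range (T + 1), g m x0 / (m.factorial : ℝ) *
          (y - x0) ^ m) (∑ m ∈ range (T + 1), g m x0 / (m.factorial : ℝ) *
            (m * (y - x0) ^ (m - 1) * 1)) y := by
        refine HasDerivAt.fun_sum fun m _ => ?_
        exact (((hasDerivAt_id y).sub_const x0).pow m).const_mul _
      have h2 : ∑ m ∈ range (T + 1), g m x0 / (m.factorial : ℝ) * (m * (y - x0) ^ (m - 1) * 1) =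
          ∑ m ∈ range T, g (m + 1) x0 / (m.factorial : ℝ) * (y - x0) ^ m := by
        rw [Finset.sum_range_succ']
        simp only [Nat.cast_zero, zero_mul, mul_zero, add_zero, Nat.add_sub_cancel, mul_one]
        refine Finset.sum_congr rfl fun m _ => ?_
        rw [Nat.factorial_succ]
        have h3 : ((m.factorial : ℕ) : ℝ) ≠ 0 := by exact_mod_cast m.factorial_ne_zero
        have h4 : (m : ℝ) + 1 ≠ 0 := by positivity
        push_cast
        field_simp
      rw [h2] at h1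
      exact (hg 0 y hy).sub h1
    have he0 : e x0 = 0 := by
      rw [he]
      simp only [sub_self]
      rw [Finset.sum_range_succ']
      simp
    rcases eq_or_lt_of_le hle with rfl | hlt
    · rw [show g 0 x0 - ∑ m ∈ range (T + 1), g m x0 / (m.factorial : ℝ) * (x0 - x0) ^ m = e x0
        from rfl, he0, abs_zero, sub_self, zero_pow (by omega), mul_zero]
    have hsub : ∀ t ∈ Icc x0 x, t ∈ Icc a b := fun t ht => ⟨hx0.1.trans ht.1, ht.2.trans hx.2⟩
    obtain ⟨y, hy, hy'⟩ := exists_hasDerivAt_eq_slope e e' hlt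
      (fun t ht => (hder t (hsub t ht)).continuousAt.continuousWithinAt)
      (fun t ht => hder t (hsub t ⟨ht.1.le, ht.2.le⟩))
    have hxx : 0 < x - x0 := sub_pos.2 hlt
    rw [he0, sub_zero] at hy'
    have h1 : e x = e' y * (x - x0) := by rw [hy']; field_simp
    change |e x| ≤ _
    rw [h1, abs_mul, abs_of_pos hxx, pow_succ, ← mul_assoc]
    refine mul_le_mul_of_nonneg_right ?_ hxx.le
    have h2 := ih hg.shift (B := B) hB x0 hx0 y (hsub y ⟨hy.1.le, hy.2.le⟩) hy.1.le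
    refine h2.trans ?_
    have hB0 : 0 ≤ B := (abs_nonneg _).trans (hB x hx)
    exact mul_le_mul_of_nonneg_left (pow_le_pow_left₀ (by linarith [hy.1]) (by linarith [hy.2]) T) hB0

/-- iterated use of the mean value theorem -/
theorem Jet.rolle {a b : ℝ} (N : ℕ) : ∀ {g : ℕ → ℝ → ℝ}, Jet a b g → ∀ {σ η u v : ℝ}, 0 < σ →
    a ≤ u → v ≤ b → ∀ x : ℕ → ℝ, (∀ i < 2 ^ N, x i ∈ Icc u v) →
      (∀ i, i + 1 < 2 ^ N → x i + σ ≤ x (i + 1)) → (∀ i < 2 ^ N, |g 0 (x i)| ≤ η) →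
      ∀ j ≤ N, ∃ y ∈ Icc u v, |g j y| ≤ (2 / σ) ^ j * η := by
  induction N with
  | zero =>
    intro g hg σ η u v hσ hau hvb x hx hsp hη j hj
    have : j = 0 := by omega
    subst this
    exact ⟨x 0, hx 0 (by norm_num), by simpa using hη 0 (by norm_num)⟩
  | succ N ih =>
    intro g hg σ η u v hσ hau hvb x hx hsp hη j hj
    rcases j with _ | j
    · exact ⟨x 0, hx 0 (by positivity), by simpa using hη 0 (by positivity)⟩
    have hη0 : 0 ≤ η := (abs_nonneg _).trans (hη 0 (by positivity))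
    have hsub : ∀ t ∈ Icc u v, t ∈ Icc a b := fun t ht => ⟨hau.trans ht.1, ht.2.trans hvb⟩
    have hy : ∀ i : ℕ, ∃ y : ℝ, i < 2 ^ N → x (2 * i) < y ∧ y < x (2 * i + 1) ∧
        |g 1 y| ≤ 2 / σ * η := by
      intro i
      by_cases hi : i < 2 ^ N
      · have h1 : 2 * i + 1 < 2 ^ (N + 1) := by rw [pow_succ]; omega
        have h2 := hsp (2 * i) h1
        have h3 := hx (2 * i) (by omega)
        have h4 := hx (2 * i + 1) h1
        obtain ⟨y, hy, hy'⟩ := exists_hasDerivAt_eq_slope (g 0) (g 1) (a := x (2 * i))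
          (b := x (2 * i + 1)) (by linarith)
          (fun t ht => (hg 0 t (hsub t ⟨h3.1.trans ht.1, ht.2.trans h4.2⟩)).continuousAt.continuousWithinAt)
          (fun t ht => hg 0 t (hsub t ⟨h3.1.trans ht.1.le, ht.2.le.trans h4.2⟩))
        refine ⟨y, fun _ => ⟨hy.1, hy.2, ?_⟩⟩
        have hpos : 0 < x (2 * i + 1) - x (2 * i) := by linarith
        rw [hy', abs_div, abs_of_pos hpos, div_le_iff₀ hpos]
        have h5 := hη (2 * i) (by omega)
        have h6 := hη (2 * i + 1) h1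
        have h7 := abs_sub (g 0 (x (2 * i + 1))) (g 0 (x (2 * i)))
        have h8 : 2 / σ * η * σ ≤ 2 / σ * η * (x (2 * i + 1) - x (2 * i)) :=
          mul_le_mul_of_nonneg_left (by linarith) (by positivity)
        have h9 : 2 / σ * η * σ = 2 * η := by field_simp
        linarith
      · exact ⟨0, fun h => absurd h hi⟩
    choose y hy using hy
    obtain ⟨z, hz, hz'⟩ := ih hg.shift (σ := σ) (η := 2 / σ * η) hσ hau hvb y
      (by
        intro i hi
        have h1 : 2 * i + 1 < 2 ^ (N + 1) := by rw [pow_succ]; omega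
        have h2 := hy i hi
        have h3 := hx (2 * i) (by omega)
        have h4 := hx (2 * i + 1) h1
        exact ⟨by linarith [h3.1, h2.1], by linarith [h4.2, h2.2.1]⟩)
      (by
        intro i hi
        have h1 : 2 * (i + 1) + 1 < 2 ^ (N + 1) := by rw [pow_succ]; omega
        have h2 := hy i (by omega)
        have h3 := hy (i + 1) hi
        have h4 := hsp (2 * i + 1) (by omega)
        rw [show 2 * (i + 1) = 2 * i + 1 + 1 by ring] at h3
        linarith [h2.2.1, h3.1])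
      (fun i hi => (hy i hi).2.2) j (by omega)
    refine ⟨z, hz, hz'.trans (le_of_eq ?_)⟩
    rw [pow_succ]
    ring

/-- the linear combination -/
def comb {ι : Type} [Fintype ι] (G : ι → ℕ → ℝ → ℝ) (c : ι → ℝ) (j : ℕ) (x : ℝ) : ℝ :=
  ∑ i, c i * G i j x

lemma comb_jet {ι : Type} [Fintype ι] {a b : ℝ} {G : ι → ℕ → ℝ → ℝ} (hG : ∀ i, Jet a b (G i))
    (c : ι → ℝ) : Jet a b (comb G c) := by
  intro j x hx
  unfold comb
  exact HasDerivAt.fun_sum fun i _ => (hG i j x hx).const_mul _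

/-- non-degeneracy -/
def Nondeg {ι : Type} [Fintype ι] (a b : ℝ) (G : ι → ℕ → ℝ → ℝ) (N : ℕ) (κ : ℝ) : Prop :=
  ∀ c : ι → ℝ, ∀ x ∈ Icc a b, κ * ‖c‖ ≤ ∑ j ∈ range N, |comb G c j x|

/-- near zeros -/
theorem near_zeros {ι : Type} [Fintype ι] {a b : ℝ} {G : ι → ℕ → ℝ → ℝ}
    (hG : ∀ i, Jet a b (G i)) {N : ℕ} {κ : ℝ} (hκ : 0 < κ) (hnd : Nondeg a b G N κ) :
    ∃ ℓ C : ℝ, 0 < ℓ ∧ 0 ≤ C ∧ ∀ (c : ι → ℝ) (σ η u v : ℝ), 0 < σ → σ ≤ 1 → a ≤ u → v ≤ b →
      v - u ≤ ℓ → ∀ x : ℕ → ℝ, (∀ i < 2 ^ N, x i ∈ Icc u v) →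
      (∀ i, i + 1 < 2 ^ N → x i + σ ≤ x (i + 1)) → (∀ i < 2 ^ N, |comb G c 0 (x i)| ≤ η) →
      ‖c‖ ≤ C * (1 / σ) ^ N * η := by
  classical
  choose B hB0 hB using fun (p : ι × ℕ) => (hG p.1).bound p.2
  set B' : ℝ := ∑ i : ι, ∑ j ∈ range (N + 1), B (i, j) with hB'
  have hB'0 : 0 ≤ B' := Finset.sum_nonneg fun i _ => Finset.sum_nonneg fun j _ => hB0 _
  have hcomb : ∀ (c : ι → ℝ) (j : ℕ), j < N + 1 → ∀ x ∈ Icc a b, |comb G c j x| ≤ B' * ‖c‖ := by
    intro c j hj x hx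
    unfold comb
    refine (Finset.abs_sum_le_sum_abs _ _).trans ?_
    rw [hB', Finset.sum_mul]
    refine Finset.sum_le_sum fun i _ => ?_
    rw [abs_mul, mul_comm]
    have h1 : |G i j x| ≤ ∑ j ∈ range (N + 1), B (i, j) :=
      (hB (i, j) x hx).trans (Finset.single_le_sum (f := fun j => B (i, j))
        (fun j _ => hB0 _) (Finset.mem_range.2 hj))
    exact mul_le_mul h1 (norm_le_pi_norm c i) (abs_nonneg _) ((abs_nonneg _).trans h1)
  refine ⟨κ / (2 * (N + 1) * (B' + 1)), 2 * N / κ * 2 ^ N, by positivity, by positivity, ?_⟩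
  intro c σ η u v hσ hσ1 hau hvb hlen x hx hsp hη
  have hη0 : 0 ≤ η := (abs_nonneg _).trans (hη 0 (by positivity))
  have hx0 := hx 0 (by positivity)
  have hsub : ∀ t ∈ Icc u v, t ∈ Icc a b := fun t ht => ⟨hau.trans ht.1, ht.2.trans hvb⟩
  have hjet := comb_jet hG c
  have hN0 : (0 : ℝ) ≤ N := Nat.cast_nonneg N
  have hc0 : 0 ≤ ‖c‖ := norm_nonneg c
  have hkey : ∀ j ∈ range N, |comb G c j (x 0)| ≤ (2 / σ) ^ N * η + (v - u) * (B' * ‖c‖) := by
    intro j hj
    rw [Finset.mem_range] at hj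
    obtain ⟨y, hy, hy'⟩ := hjet.rolle N hσ hau hvb x hx hsp hη j hj.le
    have h1 : |comb G c j (x 0) - comb G c j y| ≤ B' * ‖c‖ * |x 0 - y| := by
      have h2 := (convex_Icc u v).norm_image_sub_le_of_norm_hasDerivWithin_le
        (f := comb G c j) (f' := comb G c (j + 1)) (C := B' * ‖c‖)
        (fun t ht => (hjet j t (hsub t ht)).hasDerivWithinAt)
        (fun t ht => hcomb c (j + 1) (by omega) t (hsub t ht)) hy hx0
      exact h2
    have h2 : |x 0 - y| ≤ v - u := by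
      rw [abs_le]
      constructor <;> linarith [hx0.1, hx0.2, hy.1, hy.2]
    have h3 : (2 / σ) ^ j ≤ (2 / σ) ^ N := by
      apply pow_le_pow_right₀ _ hj.le
      rw [le_div_iff₀ hσ]
      linarith
    have h4 : |comb G c j (x 0)| ≤ |comb G c j y| + |comb G c j (x 0) - comb G c j y| := by
      have := abs_add_le (comb G c j y) (comb G c j (x 0) - comb G c j y)
      rwa [add_sub_cancel] at this
    have h5 : (2 / σ) ^ j * η ≤ (2 / σ) ^ N * η := mul_le_mul_of_nonneg_right h3 hη0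
    have h6 : B' * ‖c‖ * |x 0 - y| ≤ (v - u) * (B' * ‖c‖) := by
      rw [mul_comm]
      exact mul_le_mul_of_nonneg_right h2 (by positivity)
    linarith
  have h1 := hnd c (x 0) (hsub _ hx0)
  have h2 : ∑ j ∈ range N, |comb G c j (x 0)| ≤
      N * ((2 / σ) ^ N * η + (v - u) * (B' * ‖c‖)) := by
    refine (Finset.sum_le_card_nsmul _ _ _ hkey).trans (le_of_eq ?_)
    rw [Finset.card_range, nsmul_eq_mul]
  have h3 : N * ((v - u) * (B' * ‖c‖)) ≤ κ / 2 * ‖c‖ := by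
    have h4 : N * ((v - u) * B') ≤ κ / 2 := by
      have h5 : (v - u) * (2 * (N + 1) * (B' + 1)) ≤ κ := by
        rwa [le_div_iff₀ (by positivity)] at hlen
      have h6 : 0 ≤ v - u := by linarith [hx0.1, hx0.2]
      nlinarith [mul_nonneg h6 hN0, mul_nonneg h6 hB'0, mul_nonneg (mul_nonneg h6 hN0) hB'0]
    calc N * ((v - u) * (B' * ‖c‖)) = (N * ((v - u) * B')) * ‖c‖ := by ring
      _ ≤ κ / 2 * ‖c‖ := mul_le_mul_of_nonneg_right h4 hc0
  have h4 : κ / 2 * ‖c‖ ≤ N * ((2 / σ) ^ N * η) := by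
    rw [mul_add] at h2
    linarith
  have h5 : 2 * N / κ * 2 ^ N * (1 / σ) ^ N * η = (N * ((2 / σ) ^ N * η)) * (2 / κ) := by
    have h6 : (2 / σ) ^ N = 2 ^ N * (1 / σ) ^ N := by
      rw [← mul_pow]
      congr 1
      ring
    rw [h6]
    ring
  rw [h5]
  calc ‖c‖ = (κ / 2 * ‖c‖) * (2 / κ) := by field_simp
    _ ≤ _ := mul_le_mul_of_nonneg_right h4 (by positivity)

end Pool.Agent.X142.AN
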