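import Mathlib
import Pool.Agent.X142.AN.Jets

/-!
# Linearly independent analytic functions on a compact interval are non-degenerate
-/

set_option autoImplicit false

namespace Pool.Agent.X142.AN

open Finset Set Filter Topology

lemma jet_iteratedDeriv {a b : ℝ} {g : ℝ → ℝ} (hg : AnalyticOnNhd ℝ g (Icc a b)) :
    Jet a b (fun j => iteratedDeriv j g) := by
  intro j x hx
  have h1 : AnalyticAt ℝ (iteratedDeriv j g) x := by
    rw [iteratedDeriv_eq_iterate]
    exact hg.iterated_deriv j x hx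
  have h2 : iteratedDeriv (j + 1) g x = deriv (iteratedDeriv j g) x := by rw [iteratedDeriv_succ]
  simp only [h2]
  exact h1.differentiableAt.hasDerivAt

lemma eq_zero_of_derivs {a b : ℝ} {F : ℝ → ℝ} (hF : AnalyticOnNhd ℝ F (Icc a b)) {x0 : ℝ}
    (hx0 : x0 ∈ Icc a b) (h : ∀ j, iteratedDeriv j F x0 = 0) : ∀ x ∈ Icc a b, F x = 0 := by
  have h1 := (hF x0 hx0).hasFPowerSeriesAt
  have h2 : FormalMultilinearSeries.ofScalars ℝ
      (fun n ↦ iteratedDeriv n F x0 / n.factorial) = 0 := by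
    rw [FormalMultilinearSeries.ofScalars_series_eq_zero]
    funext n
    rw [h n]
    simp
  rw [h2] at h1
  exact hF.eqOn_zero_of_preconnected_of_eventuallyEq_zero isPreconnected_Icc hx0
    h1.eventually_eq_zero

lemma iteratedDeriv_comb {ι : Type} [Fintype ι] (g : ι → ℝ → ℝ) (c : ι → ℝ) {x : ℝ}
    (hg : ∀ i, AnalyticAt ℝ (g i) x) (j : ℕ) :
    iteratedDeriv j (fun y => ∑ i, c i * g i y) =ᶠ[𝓝 x]
      fun y => ∑ i, c i * iteratedDeriv j (g i) y := by
  induction j with
  | zero => exact Eventually.of_forall fun y => by simp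
  | succ j ih =>
    have h1 : ∀ᶠ y in 𝓝 x, ∀ i, AnalyticAt ℝ (g i) y :=
      eventually_all.2 fun i => (hg i).eventually_analyticAt
    have h2 := ih.eventuallyEq_nhds
    filter_upwards [h1, h2] with y hy hy2
    rw [iteratedDeriv_succ, hy2.deriv_eq]
    have h3 : HasDerivAt (fun y => ∑ i, c i * iteratedDeriv j (g i) y)
        (∑ i, c i * iteratedDeriv (j + 1) (g i) y) y := by
      refine HasDerivAt.fun_sum fun i _ => ?_
      refine HasDerivAt.const_mul _ ?_
      have h4 : AnalyticAt ℝ (iteratedDeriv j (g i)) y := by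
        rw [iteratedDeriv_eq_iterate]
        exact (hy i).iterated_deriv j
      rw [iteratedDeriv_succ]
      exact h4.differentiableAt.hasDerivAt
    exact h3.deriv

theorem nondeg {ι : Type} [Fintype ι] {a b : ℝ} (g : ι → ℝ → ℝ)
    (hg : ∀ i, AnalyticOnNhd ℝ (g i) (Icc a b))
    (hind : ∀ c : ι → ℝ, (∀ x ∈ Icc a b, ∑ i, c i * g i x = 0) → c = 0) :
    ∃ N : ℕ, ∃ κ : ℝ, 0 < κ ∧ Nondeg a b (fun i j => iteratedDeriv j (g i)) N κ := by
  classical
  by_contra hcon
  push Not at hcon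
  set G : ι → ℕ → ℝ → ℝ := fun i j => iteratedDeriv j (g i) with hG
  have hJ : ∀ i, Jet a b (G i) := fun i => jet_iteratedDeriv (hg i)
  have h1 : ∀ N : ℕ, ∃ c : ι → ℝ, ∃ x ∈ Icc a b, ‖c‖ = 1 ∧
      ∀ j < N, |comb G c j x| < 1 / ((N : ℝ) + 1) := by
    intro N
    have h2 := hcon N (1 / ((N : ℝ) + 1)) (by positivity)
    unfold Nondeg at h2
    push Not at h2
    obtain ⟨c, x, hx, hlt⟩ := h2
    have h3 : 0 ≤ ∑ j ∈ range N, |comb G c j x| := Finset.sum_nonneg fun j _ => abs_nonneg _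
    have h4 : 0 < ‖c‖ := by
      have h5 : 0 < 1 / ((N : ℝ) + 1) * ‖c‖ := lt_of_le_of_lt h3 hlt
      exact (pos_iff_pos_of_mul_pos h5).1 (by positivity)
    refine ⟨‖c‖⁻¹ • c, x, hx, ?_, ?_⟩
    · rw [norm_smul, norm_inv, norm_norm]
      exact inv_mul_cancel₀ h4.ne'
    · intro j hj
      have h5 : |comb G c j x| ≤ ∑ j ∈ range N, |comb G c j x| :=
        Finset.single_le_sum (f := fun j => |comb G c j x|) (fun i _ => abs_nonneg _)
          (Finset.mem_range.2 hj)
      have h6 : comb G (‖c‖⁻¹ • c) j x = ‖c‖⁻¹ * comb G c j x := by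
        unfold comb
        rw [Finset.mul_sum]
        refine Finset.sum_congr rfl fun i _ => ?_
        simp only [Pi.smul_apply, smul_eq_mul]
        ring
      rw [h6, abs_mul, abs_of_pos (inv_pos.2 h4)]
      have h7 : |comb G c j x| < 1 / ((N : ℝ) + 1) * ‖c‖ := lt_of_le_of_lt h5 hlt
      calc ‖c‖⁻¹ * |comb G c j x| < ‖c‖⁻¹ * (1 / ((N : ℝ) + 1) * ‖c‖) :=
            mul_lt_mul_of_pos_left h7 (inv_pos.2 h4)
        _ = 1 / ((N : ℝ) + 1) := by field_simp
  choose c x hx hc hcx using h1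
  have hK : IsCompact ((Metric.sphere (0 : ι → ℝ) 1) ×ˢ (Icc a b)) :=
    (isCompact_sphere 0 1).prod isCompact_Icc
  obtain ⟨⟨c0, x0⟩, ⟨hc0, hx0⟩, φ, hφ, hlim⟩ := hK.tendsto_subseq (x := fun n => (c n, x n))
    (fun n => ⟨by simpa using hc n, hx n⟩)
  simp only [mem_sphere_zero_iff_norm] at hc0
  have hlimc : Tendsto (fun n => c (φ n)) atTop (𝓝 c0) :=
    (continuous_fst.tendsto (c0, x0)).comp hlim
  have hlimx : Tendsto (fun n => x (φ n)) atTop (𝓝 x0) :=
    (continuous_snd.tendsto (c0, x0)).comp hlim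
  have hzero : ∀ j, comb G c0 j x0 = 0 := by
    intro j
    have h2 : Tendsto (fun n => comb G (c (φ n)) j (x (φ n))) atTop (𝓝 (comb G c0 j x0)) := by
      unfold comb
      refine tendsto_finsetSum _ fun i _ => ?_
      refine Tendsto.mul ?_ ?_
      · exact (continuous_apply i).tendsto c0 |>.comp hlimc
      · have h3 : Tendsto (fun n => x (φ n)) atTop (𝓝[Icc a b] x0) :=
          tendsto_nhdsWithin_iff.2 ⟨hlimx, Eventually.of_forall fun n => hx _⟩
        exact ((hJ i).continuousOn j x0 hx0).tendsto.comp h3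
    have h3 : Tendsto (fun n => comb G (c (φ n)) j (x (φ n))) atTop (𝓝 0) := by
      have h4 : Tendsto (fun n : ℕ => 1 / ((φ n : ℝ) + 1)) atTop (𝓝 0) :=
        (tendsto_one_div_add_atTop_nhds_zero_nat (𝕜 := ℝ)).comp hφ.tendsto_atTop
      refine squeeze_zero_norm' ?_ h4
      filter_upwards [eventually_gt_atTop j] with n hn
      exact (hcx (φ n) j (lt_of_lt_of_le hn (hφ.id_le n))).le
    exact tendsto_nhds_unique h2 h3
  have hF : AnalyticOnNhd ℝ (fun y => ∑ i, c0 i * g i y) (Icc a b) := by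
    intro y hy
    exact Finset.analyticAt_fun_sum _ fun i _ => analyticAt_const.mul (hg i y hy)
  have h2 := eq_zero_of_derivs hF hx0 (fun j => by
    have h3 := (iteratedDeriv_comb g c0 (fun i => hg i x0 hx0) j).self_of_nhds
    rw [h3]
    exact hzero j)
  have h3 := hind c0 h2
  rw [h3, norm_zero] at hc0
  exact zero_ne_one hc0

end Pool.Agent.X142.AN
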