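import Mathlib
import Pool.Agent.X142.AN.Nondeg
import Pool.Agent.X142.DN.Short

/-!
# The auxiliary polynomial and few near algebraic values on a short interval
-/

set_option autoImplicit false

namespace Pool.Agent.X142.AN

open Polynomial Finset

/-- the monomials -/
noncomputable def mon (f : ℝ → ℝ) (D : ℕ) (a : Fin (D + 1) × Fin (D + 1)) (x : ℝ) : ℝ :=
  x ^ (a.1 : ℕ) * f x ^ (a.2 : ℕ)

/-- the value of the auxiliary function -/
noncomputable def Fa (f : ℝ → ℝ) (lam : ℝ) {D : ℕ} (c : Fin (D + 1) × Fin (D + 1) → ℤ) (x : ℝ) : ℝ :=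
  ∑ a, (c a : ℝ) * (lam ^ (a.2 : ℕ) * mon f D a x)

lemma mon_analytic {a b : ℝ} {f : ℝ → ℝ} (hf : AnalyticOnNhd ℝ f (Set.Icc a b)) (D : ℕ)
    (p : Fin (D + 1) × Fin (D + 1)) : AnalyticOnNhd ℝ (mon f D p) (Set.Icc a b) := by
  intro x hx
  unfold mon
  exact (analyticAt_id.pow _).mul ((hf x hx).pow _)

/-- the auxiliary polynomial -/
theorem auxiliary {a b : ℝ} {f : ℝ → ℝ} (hf : AnalyticOnNhd ℝ f (Set.Icc a b)) (s D T : ℕ) :
    ∃ C0 : ℝ, 0 ≤ C0 ∧ ∀ (X : ℝ), 1 ≤ X → ∀ lam : ℝ, |lam| ≤ X ^ s →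
    ∀ x0 ∈ Set.Icc a b, ∀ (J M R : ℕ), 1 ≤ J → 0 < R → R ^ T < (M + 1) ^ ((D + 1) * (D + 1)) →
    ∃ c : Fin (D + 1) × Fin (D + 1) → ℤ, c ≠ 0 ∧ (∀ a, |c a| ≤ M) ∧
      ∀ x ∈ Set.Icc a b, x0 ≤ x → x ≤ x0 + 1 / J →
        |Fa f lam c x| ≤ C0 * (X ^ (s * D) * ((M : ℝ) + 1) * (1 / R + 1 / (J : ℝ) ^ T)) := by
  classical
  set K : ℕ := (D + 1) * (D + 1) with hK
  have hcardι : Fintype.card (Fin (D + 1) × Fin (D + 1)) = K := by simp [hK]
  have hjet : ∀ p, Jet a b (fun j => iteratedDeriv j (mon f D p)) :=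
    fun p => jet_iteratedDeriv (mon_analytic hf D p)
  choose B hB0 hB using fun (q : (Fin (D + 1) × Fin (D + 1)) × ℕ) => (hjet q.1).bound q.2
  set CT : ℝ := ∑ p : Fin (D + 1) × Fin (D + 1), ∑ j ∈ range (T + 1), B (p, j) with hCT
  have hCT0 : 0 ≤ CT := Finset.sum_nonneg fun i _ => Finset.sum_nonneg fun j _ => hB0 _
  have hCT1 : ∀ (p : Fin (D + 1) × Fin (D + 1)) (j : ℕ), j < T + 1 → ∀ x ∈ Set.Icc a b,
      |iteratedDeriv j (mon f D p) x| ≤ CT := by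
    intro p j hj x hx
    refine (hB (p, j) x hx).trans ?_
    have h1 : B (p, j) ≤ ∑ j ∈ range (T + 1), B (p, j) :=
      Finset.single_le_sum (f := fun j => B (p, j)) (fun j _ => hB0 _) (Finset.mem_range.2 hj)
    exact h1.trans (Finset.single_le_sum (f := fun p => ∑ j ∈ range (T + 1), B (p, j))
      (fun p _ => Finset.sum_nonneg fun j _ => hB0 _) (Finset.mem_univ p))
  refine ⟨2 * T * (K * CT + 1) + K * CT, by positivity, ?_⟩
  intro X hX lam hlam x0 hx0 J M R hJ hR hbox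
  set P : ℕ := s * D with hP
  have hXP : 1 ≤ X ^ P := one_le_pow₀ hX
  have hJr : (1 : ℝ) ≤ J := by exact_mod_cast hJ
  have hRr : (0 : ℝ) < R := by exact_mod_cast hR
  have hMr : (0 : ℝ) ≤ M := Nat.cast_nonneg M
  have hlamp : ∀ p : Fin (D + 1) × Fin (D + 1), |lam ^ (p.2 : ℕ)| ≤ X ^ P := by
    intro p
    rw [abs_pow]
    exact Pool.Agent.X142.DN.abs_lam_pow_le hX hlam p.2
  set L : Fin T → Fin (D + 1) × Fin (D + 1) → ℝ := fun m p =>
    lam ^ (p.2 : ℕ) * (iteratedDeriv m (mon f D p) x0 / ((m : ℕ).factorial : ℝ)) with hL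
  have hfac : ∀ m : ℕ, (1 : ℝ) ≤ (m.factorial : ℝ) := fun m => by
    exact_mod_cast Nat.one_le_iff_ne_zero.2 m.factorial_ne_zero
  obtain ⟨c, hc0, hcM, hc⟩ := Pool.Agent.X142.DM.box L (A := X ^ P * CT) (by positivity) (by
      intro m p
      rw [hL]
      simp only
      rw [abs_mul]
      refine mul_le_mul (hlamp p) ?_ (abs_nonneg _) (by positivity)
      rw [abs_div, Nat.abs_cast]
      exact (div_le_self (abs_nonneg _) (hfac m)).trans (hCT1 p m (by omega) x0 hx0))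
    M R hR (by rw [Fintype.card_fin, hcardι]; exact hbox)
  refine ⟨c, hc0, hcM, ?_⟩
  intro x hxI hxx0 hx1
  set u : ℝ := x - x0 with hu
  have hu0 : 0 ≤ u := by rw [hu]; linarith
  have hu1 : u ≤ 1 / J := by rw [hu]; linarith
  have hJ1 : 1 / (J : ℝ) ≤ 1 := by
    rw [div_le_one (by linarith)]
    exact hJr
  have hu1' : u ≤ 1 := hu1.trans hJ1
  have huT : u ^ T ≤ 1 / (J : ℝ) ^ T := by
    have := pow_le_pow_left₀ hu0 hu1 T
    rwa [div_pow, one_pow] at this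
  have hsplit : Fa f lam c x = ∑ m : Fin T, u ^ (m : ℕ) * ∑ p, (c p : ℝ) * L m p +
      ∑ p, (c p : ℝ) * lam ^ (p.2 : ℕ) *
        (mon f D p x - ∑ m ∈ range T, iteratedDeriv m (mon f D p) x0 / (m.factorial : ℝ) * u ^ m) := by
    have h1 : ∑ m : Fin T, u ^ (m : ℕ) * ∑ p, (c p : ℝ) * L m p =
        ∑ p, (c p : ℝ) * lam ^ (p.2 : ℕ) *
          ∑ m ∈ range T, iteratedDeriv m (mon f D p) x0 / (m.factorial : ℝ) * u ^ m := by
      simp_rw [Finset.mul_sum]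
      rw [Finset.sum_comm]
      refine Finset.sum_congr rfl fun p _ => ?_
      rw [← Fin.sum_univ_eq_sum_range (fun m => (c p : ℝ) *
        lam ^ (p.2 : ℕ) * (iteratedDeriv m (mon f D p) x0 / (m.factorial : ℝ) * u ^ m)) T]
      refine Finset.sum_congr rfl fun m _ => ?_
      rw [hL]
      ring
    rw [h1, ← Finset.sum_add_distrib]
    unfold Fa
    refine Finset.sum_congr rfl fun p _ => ?_
    ring
  rw [hsplit]
  refine (abs_add_le _ _).trans ?_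
  have hA : |∑ m : Fin T, u ^ (m : ℕ) * ∑ p, (c p : ℝ) * L m p| ≤
      T * (2 * (K * (M * (X ^ P * CT)) + 1) / R) := by
    refine (Finset.abs_sum_le_sum_abs _ _).trans ?_
    have h1 : ∀ m ∈ (Finset.univ : Finset (Fin T)), |u ^ (m : ℕ) * ∑ p, (c p : ℝ) * L m p| ≤
        2 * (K * (M * (X ^ P * CT)) + 1) / R := by
      intro m _
      rw [abs_mul, abs_of_nonneg (by positivity : 0 ≤ u ^ (m : ℕ))]
      have h2 := hc m
      rw [hcardι] at h2
      have h3 : u ^ (m : ℕ) ≤ 1 := pow_le_one₀ hu0 hu1'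
      calc u ^ (m : ℕ) * |∑ p, (c p : ℝ) * L m p| ≤ 1 * |∑ p, (c p : ℝ) * L m p| :=
            mul_le_mul_of_nonneg_right h3 (abs_nonneg _)
        _ ≤ _ := by rw [one_mul]; exact h2
    refine (Finset.sum_le_card_nsmul _ _ _ h1).trans ?_
    simp
  have hB : |∑ p, (c p : ℝ) * lam ^ (p.2 : ℕ) *
        (mon f D p x - ∑ m ∈ range T, iteratedDeriv m (mon f D p) x0 / (m.factorial : ℝ) * u ^ m)| ≤
      K * (M * X ^ P * (CT * (1 / (J : ℝ) ^ T))) := by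
    refine (Finset.abs_sum_le_sum_abs _ _).trans ?_
    have h1 : ∀ p ∈ (Finset.univ : Finset (Fin (D + 1) × Fin (D + 1))),
        |(c p : ℝ) * lam ^ (p.2 : ℕ) *
        (mon f D p x - ∑ m ∈ range T, iteratedDeriv m (mon f D p) x0 / (m.factorial : ℝ) * u ^ m)| ≤
        M * X ^ P * (CT * (1 / (J : ℝ) ^ T)) := by
      intro p _
      rw [abs_mul, abs_mul]
      have h2 : |(c p : ℝ)| ≤ M := by exact_mod_cast hcM p
      have h3 := (hjet p).taylor T (B := CT) (fun x hx => hCT1 p T (by omega) x hx) x0 hx0 x hxI hxx0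
      simp only [iteratedDeriv_zero] at h3
      rw [← hu] at h3
      have h4 : CT * u ^ T ≤ CT * (1 / (J : ℝ) ^ T) :=
        mul_le_mul_of_nonneg_left huT hCT0
      exact mul_le_mul (mul_le_mul h2 (hlamp p) (abs_nonneg _) hMr) (h3.trans h4) (abs_nonneg _)
        (by positivity)
    refine (Finset.sum_le_card_nsmul _ _ _ h1).trans ?_
    rw [Finset.card_univ, hcardι, nsmul_eq_mul]
  have hJT : 0 < (J : ℝ) ^ T := by positivity
  have hXP0 : 0 < X ^ P := by positivity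
  have h7 : (T : ℝ) * (2 * (K * (M * (X ^ P * CT)) + 1) / R) ≤
      2 * T * (K * CT + 1) * (X ^ P * ((M : ℝ) + 1) * (1 / R)) := by
    have h8 : (K : ℝ) * (M * (X ^ P * CT)) + 1 ≤ (K * CT + 1) * (X ^ P * ((M : ℝ) + 1)) := by
      have h9 : (1 : ℝ) ≤ X ^ P * ((M : ℝ) + 1) := by nlinarith
      have h10 : (K : ℝ) * (M * (X ^ P * CT)) ≤ K * CT * (X ^ P * ((M : ℝ) + 1)) := by
        have : 0 ≤ (K : ℝ) * CT * X ^ P := by positivity
        nlinarith
      nlinarith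
    calc (T : ℝ) * (2 * (K * (M * (X ^ P * CT)) + 1) / R) =
        2 * T * (1 / R) * (K * (M * (X ^ P * CT)) + 1) := by ring
      _ ≤ 2 * T * (1 / R) * ((K * CT + 1) * (X ^ P * ((M : ℝ) + 1))) :=
          mul_le_mul_of_nonneg_left h8 (by positivity)
      _ = _ := by ring
  have h11 : (K : ℝ) * (M * X ^ P * (CT * (1 / (J : ℝ) ^ T))) ≤
      K * CT * (X ^ P * ((M : ℝ) + 1) * (1 / (J : ℝ) ^ T)) := by
    have : 0 ≤ (K : ℝ) * CT * X ^ P * (1 / (J : ℝ) ^ T) := by positivity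
    nlinarith
  have h12 : 0 ≤ 2 * T * (K * CT + 1) * (X ^ P * ((M : ℝ) + 1) * (1 / (J : ℝ) ^ T)) := by positivity
  have h13 : 0 ≤ K * CT * (X ^ P * ((M : ℝ) + 1) * (1 / R)) := by positivity
  calc _ ≤ T * (2 * (K * (M * (X ^ P * CT)) + 1) / R) +
        K * (M * X ^ P * (CT * (1 / (J : ℝ) ^ T))) := add_le_add hA hB
    _ ≤ 2 * T * (K * CT + 1) * (X ^ P * ((M : ℝ) + 1) * (1 / R)) +
        K * CT * (X ^ P * ((M : ℝ) + 1) * (1 / (J : ℝ) ^ T)) := add_le_add h7 h11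
    _ ≤ _ := by nlinarith

lemma aeval_Rn (f : ℝ → ℝ) (lam : ℝ) {D : ℕ} (c : Fin (D + 1) × Fin (D + 1) → ℤ) (r : ℚ) :
    aeval (lam * f r) (Pool.Agent.X142.DN.Rn c r) = (r.den : ℝ) ^ D * Fa f lam c r := by
  have hd0 : (r.den : ℝ) ≠ 0 := by exact_mod_cast r.den_nz
  have hnum : (r.num : ℝ) = (r : ℝ) * r.den := by
    have h5 : (r : ℝ) = r.num / r.den := by exact_mod_cast (Rat.num_div_den r).symm
    rw [h5]
    field_simp
  unfold Pool.Agent.X142.DN.Rn Fa mon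
  rw [map_sum, Finset.mul_sum]
  refine Finset.sum_congr rfl fun a _ => ?_
  have ha : (a.1 : ℕ) ≤ D := Nat.lt_succ_iff.1 a.1.2
  rw [map_mul, map_pow, aeval_X, aeval_C, mul_pow]
  simp only [algebraMap_int_eq, eq_intCast]
  push_cast
  rw [hnum, mul_pow]
  have h1 : (r.den : ℝ) ^ D = (r.den : ℝ) ^ (a.1 : ℕ) * (r.den : ℝ) ^ (D - (a.1 : ℕ)) := by
    rw [← pow_add]
    congr 1
    omega
  rw [h1]
  ring

end Pool.Agent.X142.AN
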