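import Mathlib
import Pool.Agent.X142.AN.AuxFun

/-!
# Few near algebraic values of a transcendental analytic function on a short interval
-/

set_option autoImplicit false

namespace Pool.Agent.X142.AN

open Polynomial Finset Pool.Agent.X142.DN

/-- `f` is transcendental on `[a,b]` -/
def Transc (f : ℝ → ℝ) (a b : ℝ) : Prop :=
  ∀ (D : ℕ) (c : Fin (D + 1) × Fin (D + 1) → ℝ),
    (∀ x ∈ Set.Icc a b, ∑ p, c p * mon f D p x = 0) → c = 0

lemma spacing_den {X : ℝ} (hX : 1 ≤ X) {r r' : ℚ} (hrX : (r.den : ℝ) ≤ X)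
    (hrX' : (r'.den : ℝ) ≤ X) (hlt : r < r') : (r : ℝ) + 1 / X ^ 2 ≤ r' := by
  have h3 : (0 : ℝ) < r.den := by exact_mod_cast r.den_pos
  have h4 : (0 : ℝ) < r'.den := by exact_mod_cast r'.den_pos
  have h5 : (r : ℝ) = r.num / r.den := by exact_mod_cast (Rat.num_div_den r).symm
  have h6 : (r' : ℝ) = r'.num / r'.den := by exact_mod_cast (Rat.num_div_den r').symm
  have hltr : (r : ℝ) < r' := by exact_mod_cast hlt
  have h7 : (1 : ℝ) ≤ r'.num * r.den - r.num * r'.den := by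
    rw [h5, h6, div_lt_div_iff₀ h3 h4] at hltr
    have h8 : r.num * (r'.den : ℤ) < r'.num * (r.den : ℤ) := by exact_mod_cast hltr
    have h9 : 1 ≤ r'.num * (r.den : ℤ) - r.num * (r'.den : ℤ) := by omega
    exact_mod_cast h9
  have h8 : (r' : ℝ) - r = (r'.num * r.den - r.num * r'.den) / (r.den * r'.den) := by
    rw [h5, h6]
    field_simp
  have h9 : (r.den : ℝ) * r'.den ≤ X ^ 2 := by
    rw [sq]
    exact mul_le_mul hrX hrX' h4.le (by linarith)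
  have h10 : 1 / (X ^ 2) ≤ (r' : ℝ) - r := by
    rw [h8, div_le_div_iff₀ (by positivity) (by positivity)]
    have : 0 < (r.den : ℝ) * r'.den := by positivity
    nlinarith
  linarith

theorem few_near_zeros {a b : ℝ} {f : ℝ → ℝ} (hf : AnalyticOnNhd ℝ f (Set.Icc a b))
    (htr : Transc f a b) (D : ℕ) : ∃ N : ℕ, ∃ ℓ C : ℝ, 0 < ℓ ∧ 0 ≤ C ∧ ∀ X : ℝ, 1 ≤ X →
      ∀ (lam : ℝ) (c : Fin (D + 1) × Fin (D + 1) → ℤ) (η u v : ℝ) (S : Finset ℚ),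
      a ≤ u → v ≤ b → v - u ≤ ℓ → (∀ r ∈ S, (r : ℝ) ∈ Set.Icc u v ∧ (r.den : ℝ) ≤ X) →
      (∀ r ∈ S, |Fa f lam c r| ≤ η) → 2 ^ N ≤ S.card →
      ∀ p, |(c p : ℝ) * lam ^ (p.2 : ℕ)| ≤ C * (X ^ 2) ^ N * η := by
  classical
  obtain ⟨N, κ, hκ, hnd⟩ := nondeg (mon f D) (fun p => mon_analytic hf D p) (htr D)
  obtain ⟨ℓ, C, hℓ, hC, h⟩ := near_zeros (fun p => jet_iteratedDeriv (mon_analytic hf D p)) hκ hnd
  refine ⟨N, ℓ, C, hℓ, hC, ?_⟩
  intro X hX lam c η u v S hau hvb hlen hS hF hcard p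
  obtain ⟨S', hS', hS'c⟩ := Finset.exists_subset_card_eq hcard
  set em := S'.orderEmbOfFin hS'c with hem
  have hmem : ∀ i, em i ∈ S := fun i => hS' (Finset.orderEmbOfFin_mem S' hS'c i)
  set x : ℕ → ℝ := fun i => if hi : i < 2 ^ N then ((em ⟨i, hi⟩ : ℚ) : ℝ) else 0 with hx
  have hxi : ∀ i (hi : i < 2 ^ N), x i = ((em ⟨i, hi⟩ : ℚ) : ℝ) := by
    intro i hi
    rw [hx]
    simp [hi]
  have h1 := h (fun q => (c q : ℝ) * lam ^ (q.2 : ℕ)) (1 / X ^ 2) η u v (by positivity)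
    (by
      rw [div_le_one (by positivity)]
      exact one_le_pow₀ hX) hau hvb hlen x
    (by
      intro i hi
      rw [hxi i hi]
      exact (hS _ (hmem ⟨i, hi⟩)).1)
    (by
      intro i hi
      rw [hxi i (by omega), hxi (i + 1) hi]
      have h2 : em ⟨i, by omega⟩ < em ⟨i + 1, hi⟩ := by
        apply em.strictMono
        simp [Fin.lt_def]
      exact spacing_den hX (hS _ (hmem ⟨i, by omega⟩)).2 (hS _ (hmem ⟨i + 1, hi⟩)).2 h2)
    (by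
      intro i hi
      rw [hxi i hi]
      have h2 := hF _ (hmem ⟨i, hi⟩)
      have h3 : comb (fun q j => iteratedDeriv j (mon f D q))
          (fun q => (c q : ℝ) * lam ^ (q.2 : ℕ)) 0 ((em ⟨i, hi⟩ : ℚ) : ℝ) =
          Fa f lam c ((em ⟨i, hi⟩ : ℚ) : ℝ) := by
        unfold comb Fa
        refine Finset.sum_congr rfl fun q _ => ?_
        simp only [iteratedDeriv_zero]
        ring
      rw [h3]
      exact h2)
  rw [one_div_one_div] at h1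
  exact (norm_le_pi_norm (fun q : Fin (D + 1) × Fin (D + 1) =>
    (c q : ℝ) * lam ^ (q.2 : ℕ)) p).trans h1

theorem short {a b : ℝ} {f : ℝ → ℝ} (hf : AnalyticOnNhd ℝ f (Set.Icc a b))
    (htr : Transc f a b) (s d E : ℕ) (hd : 1 ≤ d) (hE : 1 ≤ E) : ∃ L w X0 : ℕ,
    ∀ X : ℕ, X0 ≤ X → ∀ lam : ℝ, ((X : ℝ) ^ s)⁻¹ ≤ |lam| → |lam| ≤ (X : ℝ) ^ s →
      ∀ J : ℕ, 1 ≤ J → X ≤ J ^ E → ∀ x0 : ℝ, a ≤ x0 → x0 ≤ b → ∀ S : Finset ℚ,
      (∀ r ∈ S, |(r.num : ℝ)| ≤ X ∧ r.den ≤ X ∧ x0 ≤ r ∧ (r : ℝ) ≤ x0 + 1 / J ∧ (r : ℝ) ≤ b ∧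
        NearAlg d ((X : ℝ) ^ s) (((X : ℝ) ^ w)⁻¹) (lam * f r)) → S.card < L := by
  classical
  set q0 : ℕ := 3 * s + 3 * d + s * d + 4 with hq0
  set D : ℕ := E * q0 ^ 2 + 1 with hD
  set t : ℕ := D * q0 with ht
  set T : ℕ := E * t with hT
  set K : ℕ := (D + 1) * (D + 1) with hK
  set P : ℕ := s * D with hP
  have hD1 : 1 ≤ D := by rw [hD]; omega
  obtain ⟨C0, hC0, haux⟩ := auxiliary hf s D T
  obtain ⟨N, ℓ, C3, hℓ, hC3, hzeros⟩ := few_near_zeros hf htr D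
  obtain ⟨Bf, hBf0, hBf⟩ := (jet_iteratedDeriv hf).bound 0
  simp only [iteratedDeriv_zero] at hBf
  set C4 : ℝ := (D + 1) * (D * K * 2 ^ D) with hC4
  set C5 : ℝ := (K : ℝ) ^ d * (((d + D : ℕ) : ℝ) * (2 * C0 + 1) * (d + D).factorial) with hC5
  have hC50 : 0 ≤ C5 := by positivity
  have hC40 : 0 ≤ C4 := by positivity
  set w1 : ℕ := 2 * N + 3 * D + 2 * (s * D) + 1 with hw1
  set J0 : ℕ := ⌈1 / ℓ⌉₊ with hJ0
  refine ⟨2 ^ N, d * w1 + t, ⌈C5⌉₊ + ⌈C3 * C4⌉₊ + ⌈Bf⌉₊ + (J0 + 1) ^ E + 2, ?_⟩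
  intro X hX0 lam hlam1 hlam2 J hJ hJE x0 hx0a hx0b S hS
  by_contra hcard
  push Not at hcard
  have hX2 : 2 ≤ X := by omega
  have hx2 : (2 : ℝ) ≤ X := by exact_mod_cast hX2
  have hx1 : (1 : ℝ) ≤ X := by linarith
  set x : ℝ := (X : ℝ) with hx
  have hx0 : 0 < x := by linarith
  have hX0r : ((⌈C5⌉₊ : ℝ)) + ⌈C3 * C4⌉₊ + ⌈Bf⌉₊ + (J0 + 1) ^ E + 2 ≤ x := by
    have h2 : ((⌈C5⌉₊ + ⌈C3 * C4⌉₊ + ⌈Bf⌉₊ + (J0 + 1) ^ E + 2 : ℕ) : ℝ) ≤ x := Nat.cast_le.2 hX0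
    push_cast at h2
    exact h2
  have hn1 : (0 : ℝ) ≤ (⌈C5⌉₊ : ℝ) := Nat.cast_nonneg _
  have hn2 : (0 : ℝ) ≤ (⌈C3 * C4⌉₊ : ℝ) := Nat.cast_nonneg _
  have hn3 : (0 : ℝ) ≤ (⌈Bf⌉₊ : ℝ) := Nat.cast_nonneg _
  have hn4 : (0 : ℝ) ≤ ((J0 : ℝ) + 1) ^ E := by positivity
  have hxC5 : C5 < x := by
    have h1 := Nat.le_ceil C5
    linarith
  have hxC3 : C3 * C4 < x := by
    have h1 := Nat.le_ceil (C3 * C4)
    linarith
  have hxBf : Bf ≤ x := by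
    have h1 := Nat.le_ceil Bf
    linarith
  have hJJ0 : J0 + 1 ≤ J := by
    by_contra hlt
    push Not at hlt
    have h1 : J ^ E ≤ (J0 + 1) ^ E := Nat.pow_le_pow_left hlt.le E
    omega
  have hJℓ : 1 / (J : ℝ) ≤ ℓ := by
    have h1 : 1 / ℓ ≤ (J0 : ℝ) := Nat.le_ceil _
    have h2 : (J0 : ℝ) + 1 ≤ J := by exact_mod_cast hJJ0
    have h3 : (0 : ℝ) < J := by
      have : (0 : ℝ) ≤ J0 := Nat.cast_nonneg _
      linarith
    rw [div_le_iff₀ h3]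
    rw [div_le_iff₀ hℓ] at h1
    nlinarith
  -- the auxiliary polynomial
  have hbox : (X ^ t) ^ T < (X ^ D - 1 + 1) ^ ((D + 1) * (D + 1)) := by
    have h1 : X ^ D - 1 + 1 = X ^ D := Nat.sub_add_cancel (Nat.one_le_pow _ _ (by omega))
    rw [h1, ← pow_mul, ← pow_mul]
    apply Nat.pow_lt_pow_right (by omega)
    have h2 : t * T = (E * q0 ^ 2) * (D * D) := by rw [hT, ht]; ring
    have h3 : E * q0 ^ 2 + 1 = D := hD.symm
    rw [h2]
    nlinarith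
  obtain ⟨c, hc0, hcM, hcF⟩ := haux x hx1 lam hlam2 x0 ⟨hx0a, hx0b⟩ J (X ^ D - 1) (X ^ t) hJ
    (by positivity) hbox
  have hM1 : ((X ^ D - 1 : ℕ) : ℝ) + 1 = x ^ D := by
    have h1 : X ^ D - 1 + 1 = X ^ D := Nat.sub_add_cancel (Nat.one_le_pow _ _ (by omega))
    have h2 : (((X ^ D - 1 + 1 : ℕ)) : ℝ) = ((X ^ D : ℕ) : ℝ) := by rw [h1]
    push_cast at h2
    exact h2
  have hcM' : ∀ a, |(c a : ℝ)| ≤ x ^ D := by
    intro a
    have h1 : |(c a : ℝ)| ≤ ((X ^ D - 1 : ℕ) : ℝ) := by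
      have := hcM a
      exact_mod_cast this
    linarith
  have hJT : x ^ t ≤ (J : ℝ) ^ T := by
    have h1 : x ≤ (J : ℝ) ^ E := by
      have h0 : (X : ℝ) ≤ ((J ^ E : ℕ) : ℝ) := Nat.cast_le.2 hJE
      rwa [Nat.cast_pow] at h0
    calc x ^ t ≤ ((J : ℝ) ^ E) ^ t := pow_le_pow_left₀ hx0.le h1 t
      _ = (J : ℝ) ^ T := by rw [hT, ← pow_mul]
  have hxt : 0 < x ^ t := by positivity
  set η : ℝ := (2 * C0 + 1) * (x ^ (P + 2 * D) / x ^ t) with hη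
  have hη0 : 0 ≤ η := by positivity
  have hFη : ∀ r ∈ S, x ^ D * |Fa f lam c r| ≤ η := by
    intro n hn
    obtain ⟨hnX, hdX, hnx0, hnx1, hnb, _⟩ := hS n hn
    have h0 := hcF n ⟨hx0a.trans hnx0, hnb⟩ hnx0 hnx1
    rw [hM1] at h0
    have h1 : 1 / ((X ^ t : ℕ) : ℝ) + 1 / (J : ℝ) ^ T ≤ 2 / x ^ t := by
      have h2 : 1 / (J : ℝ) ^ T ≤ 1 / x ^ t := one_div_le_one_div_of_le hxt hJT
      have h3 : ((X ^ t : ℕ) : ℝ) = x ^ t := by push_cast; rfl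
      rw [h3]
      have h4 : (2 : ℝ) / x ^ t = 1 / x ^ t + 1 / x ^ t := by ring
      linarith
    calc x ^ D * |Fa f lam c n| ≤
          x ^ D * (C0 * (x ^ (s * D) * x ^ D * (1 / ((X ^ t : ℕ) : ℝ) + 1 / (J : ℝ) ^ T))) :=
          mul_le_mul_of_nonneg_left h0 (by positivity)
      _ ≤ x ^ D * (C0 * (x ^ (s * D) * x ^ D * (2 / x ^ t))) := by gcongr
      _ = 2 * C0 * (x ^ (P + 2 * D) / x ^ t) := by
          rw [show P + 2 * D = s * D + D + D by rw [hP]; ring, pow_add _ _ D,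
            pow_add _ _ D]
          ring
      _ ≤ η := by
          rw [hη]
          have : 0 ≤ x ^ (P + 2 * D) / x ^ t := by positivity
          nlinarith
  -- divisibility
  have hsmall : ∀ r ∈ S, |Fa f lam c r| ≤ C4 * x ^ (2 * D + (s + 1) * D) / x ^ w1 := by
    intro n hn
    obtain ⟨hnX, hdX, hnx0, hnx1, hnb, Q, hQi, hQ1, hQd, hQH, hQη⟩ := hS n hn
    have hden1 : (1 : ℝ) ≤ n.den := by exact_mod_cast n.den_pos
    have hdenX : (n.den : ℝ) ≤ x := Nat.cast_le.2 hdX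
    set ξ : ℝ := lam * f n with hξ
    have hξT : |ξ| ≤ x ^ (s + 1) := by
      rw [hξ, abs_mul, pow_succ]
      exact mul_le_mul hlam2 ((hBf n ⟨hx0a.trans hnx0, hnb⟩).trans hxBf) (abs_nonneg _)
        (by positivity)
    have hRH : ∀ i, |((Rn c n).coeff i : ℝ)| ≤ K * x ^ (2 * D) := by
      intro i
      have := coeff_Rn_le c n (by positivity : (0 : ℝ) ≤ x ^ D) hx1 hcM' hnX hdenX i
      rwa [← pow_add, ← two_mul] at this
    have hK1 : (1 : ℝ) ≤ K := by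
      have : 1 ≤ K := by rw [hK]; exact Nat.mul_pos (by omega) (by omega)
      exact_mod_cast this
    have hHR : 1 ≤ K * x ^ (2 * D) := by
      have : 1 ≤ x ^ (2 * D) := one_le_pow₀ hx1
      nlinarith
    have hRv : aeval ξ (Rn c n) = (n.den : ℝ) ^ D * Fa f lam c n := aeval_Rn f lam c n
    have hden1D : (1 : ℝ) ≤ (n.den : ℝ) ^ D := one_le_pow₀ hden1
    have hRη : |aeval ξ (Rn c n)| ≤ η := by
      rw [hRv, abs_mul, abs_of_pos (by positivity)]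
      refine le_trans ?_ (hFη n hn)
      exact mul_le_mul_of_nonneg_right (pow_le_pow_left₀ (Nat.cast_nonneg _) hdenX D) (abs_nonneg _)
    have hQη' : |aeval ξ Q| ≤ η := by
      refine hQη.trans ?_
      rw [hη]
      have h1 : (x ^ (d * w1 + t))⁻¹ ≤ (x ^ t)⁻¹ :=
        inv_anti₀ hxt (pow_le_pow_right₀ hx1 (by omega))
      have h2 : (x ^ t)⁻¹ ≤ x ^ (P + 2 * D) / x ^ t := by
        rw [inv_eq_one_div]
        exact div_le_div_of_nonneg_right (one_le_pow₀ hx1) hxt.le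
      have h3 : 0 ≤ x ^ (P + 2 * D) / x ^ t := by positivity
      nlinarith
    have hdvd : Q ∣ Rn c n := by
      refine Pool.Agent.X142.DM.dvd_of_small Q (Rn c n) hQi hQ1 hQd (natDegree_Rn c n)
        (one_le_pow₀ hx1) hHR
        (one_le_pow₀ hx1 : 1 ≤ x ^ (s + 1)) hη0 hQH hRH ξ hξT hQη' hRη ?_
      have h1 : (x ^ s) ^ D * (K * x ^ (2 * D)) ^ d *
          (((d + D : ℕ) : ℝ) * ((x ^ (s + 1)) ^ (d + D) * η) * (d + D).factorial) =
          C5 * (x ^ (s * D + 2 * D * d + (s + 1) * (d + D) + (P + 2 * D)) / x ^ t) := by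
        rw [hη, hC5, mul_pow, ← pow_mul, ← pow_mul, ← pow_mul, pow_add _ _ (P + 2 * D),
          pow_add _ _ ((s + 1) * (d + D)), pow_add _ (s * D)]
        ring
      rw [h1]
      have h2 : x ^ (s * D + 2 * D * d + (s + 1) * (d + D) + (P + 2 * D)) / x ^ t ≤ 1 / x := by
        rw [div_le_div_iff₀ hxt hx0, one_mul, ← pow_succ]
        apply pow_le_pow_right₀ hx1
        rw [ht, hP, hq0]
        have h3 := Nat.mul_le_mul_left ((s + 1) * d + 1) hD1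
        linarith
      calc C5 * (x ^ (s * D + 2 * D * d + (s + 1) * (d + D) + (P + 2 * D)) / x ^ t) ≤
            C5 * (1 / x) := mul_le_mul_of_nonneg_left h2 hC50
        _ < 1 := by rw [mul_one_div, div_lt_one hx0]; exact hxC5
    have hη'0 : 0 ≤ (x ^ (d * w1 + t))⁻¹ := by positivity
    have hη'1 : (x ^ (d * w1 + t))⁻¹ ≤ 1 := inv_le_one_of_one_le₀ (one_le_pow₀ hx1)
    have hfin := Pool.Agent.X142.DM.small_of_dvd Q (Rn c n) hQ1 hdvd hQd (natDegree_Rn c n) hHR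
      (one_le_pow₀ hx1 : 1 ≤ x ^ (s + 1)) hη'0 hη'1 hRH ξ hξT hQη
    rw [hRv] at hfin
    have hfin' : |Fa f lam c n| ≤ |(n.den : ℝ) ^ D * Fa f lam c n| := by
      rw [abs_mul, abs_of_pos (by positivity : (0 : ℝ) < (n.den : ℝ) ^ D)]
      have := abs_nonneg (Fa f lam c n)
      nlinarith
    refine (hfin'.trans hfin).trans ?_
    have h1 : ((x ^ (d * w1 + t))⁻¹) ^ ((d : ℝ)⁻¹) ≤ (x ^ w1)⁻¹ := by
      have h2 : (x ^ (d * w1 + t))⁻¹ ≤ ((x ^ w1)⁻¹) ^ d := by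
        rw [inv_pow, ← pow_mul, mul_comm w1 d]
        exact inv_anti₀ (by positivity) (pow_le_pow_right₀ hx1 (by omega))
      calc ((x ^ (d * w1 + t))⁻¹) ^ ((d : ℝ)⁻¹) ≤ (((x ^ w1)⁻¹) ^ d) ^ ((d : ℝ)⁻¹) :=
            Real.rpow_le_rpow hη'0 h2 (by positivity)
        _ = (x ^ w1)⁻¹ := Real.pow_rpow_inv_natCast (by positivity) (by omega)
    have h3 : (x ^ (s + 1) + 1) ^ D ≤ 2 ^ D * x ^ ((s + 1) * D) := by
      have h4 : x ^ (s + 1) + 1 ≤ 2 * x ^ (s + 1) := by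
        have : 1 ≤ x ^ (s + 1) := one_le_pow₀ hx1
        linarith
      calc (x ^ (s + 1) + 1) ^ D ≤ (2 * x ^ (s + 1)) ^ D := pow_le_pow_left₀ (by positivity) h4 D
        _ = _ := by rw [mul_pow, ← pow_mul]
    calc ((x ^ (d * w1 + t))⁻¹) ^ ((d : ℝ)⁻¹) *
          (((D : ℝ) + 1) * (D * (K * x ^ (2 * D)) * (x ^ (s + 1) + 1) ^ D)) ≤
          (x ^ w1)⁻¹ * (((D : ℝ) + 1) * (D * (K * x ^ (2 * D)) * (2 ^ D * x ^ ((s + 1) * D)))) := by
          gcongr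
      _ = C4 * x ^ (2 * D + (s + 1) * D) / x ^ w1 := by
          rw [hC4, pow_add]
          ring
  -- conclusion
  obtain ⟨p, hp⟩ : ∃ p, c p ≠ 0 := by
    by_contra hcon
    push Not at hcon
    exact hc0 (funext hcon)
  have h1 := hzeros x hx1 lam c _ x0 (min (x0 + 1 / J) b) S hx0a (min_le_right _ _)
    (by
      have := min_le_left (x0 + 1 / (J : ℝ)) b
      linarith)
    (fun n hn => by
      obtain ⟨hnX, hdX, hnx0, hnx1, hnb, _⟩ := hS n hn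
      exact ⟨⟨hnx0, le_min hnx1 hnb⟩, Nat.cast_le.2 hdX⟩)
    hsmall hcard p
  have h2 : (x ^ (s * D))⁻¹ ≤ |(c p : ℝ) * lam ^ (p.2 : ℕ)| := by
    rw [abs_mul, abs_pow]
    have h3 : (1 : ℝ) ≤ |(c p : ℝ)| := by
      have : (1 : ℤ) ≤ |c p| := Int.one_le_abs hp
      exact_mod_cast this
    have h4 : (x ^ (s * D))⁻¹ ≤ |lam| ^ (p.2 : ℕ) := by
      have h5 : ((x ^ s)⁻¹) ^ (p.2 : ℕ) ≤ |lam| ^ (p.2 : ℕ) :=
        pow_le_pow_left₀ (by positivity) hlam1 _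
      refine le_trans ?_ h5
      rw [inv_pow, ← pow_mul]
      exact inv_anti₀ (by positivity)
        (pow_le_pow_right₀ hx1 (Nat.mul_le_mul_left s (Nat.lt_succ_iff.1 p.2.2)))
    have h6 : 0 ≤ |lam| ^ (p.2 : ℕ) := by positivity
    nlinarith
  have h4 := h2.trans h1
  have h5 : C3 * (x ^ 2) ^ N * (C4 * x ^ (2 * D + (s + 1) * D) / x ^ w1) =
      C3 * C4 / x * (x ^ (s * D))⁻¹ := by
    rw [hw1]
    have e1 : x ^ (2 * N + 3 * D + 2 * (s * D) + 1) =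
        (x ^ 2) ^ N * x ^ (2 * D + (s + 1) * D) * x ^ (s * D) * x := by
      rw [← pow_mul, ← pow_add, ← pow_add, ← pow_succ]
      congr 1
      ring
    rw [e1]
    field_simp
  rw [h5] at h4
  have h6 : 0 < (x ^ (s * D))⁻¹ := by positivity
  have h7 : C3 * C4 / x < 1 := by rw [div_lt_one hx0]; exact hxC3
  nlinarith

end Pool.Agent.X142.AN
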