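import Mathlib
import Pool.Agent.X142.AN.Short
import Pool.Agent.X142.DN.Count

/-!
# Counting near algebraic values of a transcendental analytic function at rational numbers
-/

set_option autoImplicit false

namespace Pool.Agent.X142.AN

open Polynomial Finset Pool.Agent.X142.DN

/-- the trivial bound -/
lemma card_le_triv (X : ℕ) (S : Finset ℚ) (hS : ∀ r ∈ S, |(r.num : ℝ)| ≤ X ∧ r.den ≤ X) :
    S.card ≤ (2 * X + 1) * (X + 1) := by
  classical
  have h1 : S ⊆ (Finset.Icc (-(X : ℤ)) X ×ˢ Finset.range (X + 1)).image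
      (fun p : ℤ × ℕ => (p.1 : ℚ) / p.2) := by
    intro r hr
    obtain ⟨h1, h2⟩ := hS r hr
    refine Finset.mem_image.2 ⟨(r.num, r.den), ?_, ?_⟩
    · rw [Finset.mem_product, Finset.mem_Icc, Finset.mem_range]
      rw [abs_le] at h1
      refine ⟨⟨?_, ?_⟩, by simp only; omega⟩
      · have := h1.1
        simp only
        exact_mod_cast this
      · have := h1.2
        simp only
        exact_mod_cast this
    · exact Rat.num_div_den r
  refine (Finset.card_le_card h1).trans (Finset.card_image_le.trans ?_)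
  rw [Finset.card_product, Int.card_Icc, Finset.card_range]
  apply Nat.mul_le_mul_right
  omega

/-- For `f` analytic and transcendental on `[a,b]` and all `d ≥ 1`, `c` and `ε > 0` there are `w`
and `C` such that for all `X ≥ 1` and all `lam` with `X^{-c} ≤ |lam| ≤ X^c` at most `C X^ε` rational
numbers `r` in `[a,b]` with numerator and denominator at most `X` have `lam f(r)` close (`X^{-w}`)
to algebraic of degree `≤ d` and height `≤ X^c`. -/
theorem count {a b : ℝ} (hab : a ≤ b) {f : ℝ → ℝ} (hf : AnalyticOnNhd ℝ f (Set.Icc a b))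
    (htr : Transc f a b) (d : ℕ) (hd : 1 ≤ d) (c ε : ℝ) (hε : 0 < ε) :
    ∃ w C : ℝ, 0 ≤ w ∧ 0 < C ∧ ∀ X : ℕ, 1 ≤ X → ∀ lam : ℝ, (X : ℝ) ^ (-c) ≤ |lam| →
      |lam| ≤ (X : ℝ) ^ c → ∀ S : Finset ℚ,
      (∀ r ∈ S, (r : ℝ) ∈ Set.Icc a b ∧ |(r.num : ℝ)| ≤ X ∧ r.den ≤ X ∧
        NearAlg d ((X : ℝ) ^ c) ((X : ℝ) ^ (-w)) (lam * f r)) →
      (S.card : ℝ) ≤ C * (X : ℝ) ^ ε := by
  classical
  set s : ℕ := ⌈c⌉₊ with hs
  have hs2 : c ≤ s := Nat.le_ceil c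
  set E : ℕ := ⌈1 / ε⌉₊ with hE
  have hE1 : 1 ≤ E := Nat.one_le_iff_ne_zero.2 (by
    rw [hE]
    exact (Nat.ceil_pos.2 (by positivity)).ne')
  have hEr : (1 : ℝ) ≤ E := by exact_mod_cast hE1
  have hE2 : (1 : ℝ) / E ≤ ε := by
    have h1 : 1 / ε ≤ (E : ℝ) := Nat.le_ceil _
    rw [div_le_iff₀ (by linarith)]
    rw [div_le_iff₀ hε] at h1
    linarith
  obtain ⟨L, w, X0, hshort⟩ := short hf htr s d E hd hE1
  refine ⟨w, L * (2 * (b - a) + 2) + (2 * X0 + 1) * (X0 + 1) + 1, Nat.cast_nonneg _, ?_, ?_⟩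
  · have : 0 ≤ b - a := by linarith
    positivity
  intro X hX lam hlam1 hlam2 S hS
  have hba : 0 ≤ b - a := by linarith
  have hXr : (1 : ℝ) ≤ X := by exact_mod_cast hX
  have hX0r : (0 : ℝ) < X := by linarith
  have hXε : 1 ≤ (X : ℝ) ^ ε := Real.one_le_rpow hXr hε.le
  have hL0 : (0 : ℝ) ≤ L := Nat.cast_nonneg _
  by_cases hXX : X < X0
  · have h1 : S.card ≤ (2 * X + 1) * (X + 1) := card_le_triv X S fun r hr =>
      ⟨(hS r hr).2.1, (hS r hr).2.2.1⟩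
    have h3 : (S.card : ℝ) ≤ (2 * X0 + 1) * (X0 + 1) := by
      have : S.card ≤ (2 * X0 + 1) * (X0 + 1) := h1.trans (by gcongr)
      exact_mod_cast this
    have h4 : (0 : ℝ) ≤ L * (2 * (b - a) + 2) := by positivity
    have h5 : (0 : ℝ) ≤ (2 * (X0 : ℝ) + 1) * (X0 + 1) := by positivity
    nlinarith
  push Not at hXX
  set J : ℕ := ⌈(X : ℝ) ^ ((E : ℝ)⁻¹)⌉₊ with hJ
  have hXE : 1 ≤ (X : ℝ) ^ ((E : ℝ)⁻¹) := Real.one_le_rpow hXr (by positivity)
  have hJ0 : (X : ℝ) ^ ((E : ℝ)⁻¹) ≤ J := Nat.le_ceil _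
  have hJ1 : 1 ≤ J := by
    have : (1 : ℝ) ≤ J := hXE.trans hJ0
    exact_mod_cast this
  have hJr : (1 : ℝ) ≤ J := by exact_mod_cast hJ1
  have hJpos : (0 : ℝ) < J := by linarith
  have hJ2 : (J : ℝ) ≤ 2 * (X : ℝ) ^ ε := by
    have h1 : (J : ℝ) < (X : ℝ) ^ ((E : ℝ)⁻¹) + 1 := Nat.ceil_lt_add_one (by positivity)
    have h2 : (X : ℝ) ^ ((E : ℝ)⁻¹) ≤ (X : ℝ) ^ ε :=
      Real.rpow_le_rpow_of_exponent_le hXr (by rw [← one_div]; exact hE2)
    linarith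
  have hJE : X ≤ J ^ E := by
    have h1 : ((X : ℝ) ^ ((E : ℝ)⁻¹)) ^ E ≤ (J : ℝ) ^ E :=
      pow_le_pow_left₀ (by positivity) hJ0 E
    rw [Real.rpow_inv_natCast_pow hX0r.le (by omega)] at h1
    exact_mod_cast h1
  set g : ℚ → ℕ := fun n => ⌊((n : ℝ) - a) * J⌋₊ with hg
  set N : ℕ := ⌊(b - a) * J⌋₊ + 1 with hN
  have hmaps : ∀ n ∈ S, g n ∈ Finset.range N := by
    intro n hn
    rw [Finset.mem_range, hN, Nat.lt_succ_iff, hg]
    apply Nat.floor_le_floor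
    have hn2 : (n : ℝ) ≤ b := (hS n hn).1.2
    nlinarith
  have hfib : ∀ k ∈ Finset.range N, (S.filter (fun n => g n = k)).card ≤ L := by
    intro k _
    by_cases hemp : (S.filter (fun n => g n = k)) = ∅
    · rw [hemp]; simp
    obtain ⟨n0, hn0⟩ := Finset.nonempty_iff_ne_empty.2 hemp
    have hbd : ∀ n ∈ S.filter (fun n => g n = k), a + k / J ≤ n ∧ (n : ℝ) ≤ a + k / J + 1 / J := by
      intro n hn
      obtain ⟨hnS, hnk⟩ := Finset.mem_filter.1 hn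
      have hn1 : a ≤ (n : ℝ) := (hS n hnS).1.1
      have h0 : 0 ≤ ((n : ℝ) - a) * J := mul_nonneg (by linarith) hJpos.le
      have h1 := Nat.floor_le h0
      have h2 := Nat.lt_floor_add_one (((n : ℝ) - a) * J)
      have h3 : ⌊((n : ℝ) - a) * J⌋₊ = k := hnk
      rw [h3] at h1 h2
      have h4 : (k : ℝ) / J ≤ n - a := by rwa [div_le_iff₀ hJpos]
      have h5 : (n : ℝ) - a < (k + 1) / J := by rwa [lt_div_iff₀ hJpos]
      rw [add_div] at h5
      constructor <;> linarith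
    have h1 := hbd n0 hn0
    have hn0b : (n0 : ℝ) ≤ b := (hS n0 (Finset.mem_filter.1 hn0).1).1.2
    refine (hshort X hXX lam ?_ ?_ J hJ1 hJE (a + k / J) ?_ (h1.1.trans hn0b)
      (S.filter (fun n => g n = k)) ?_).le
    · refine le_trans ?_ hlam1
      rw [← Real.rpow_natCast, ← Real.rpow_neg hX0r.le]
      exact Real.rpow_le_rpow_of_exponent_le hXr (by linarith)
    · refine hlam2.trans ?_
      rw [← Real.rpow_natCast]
      exact Real.rpow_le_rpow_of_exponent_le hXr hs2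
    · have : (0 : ℝ) ≤ k / J := by positivity
      linarith
    intro n hn
    obtain ⟨hnS, hnk⟩ := Finset.mem_filter.1 hn
    obtain ⟨ha, hb, hc, hd⟩ := hS n hnS
    obtain ⟨hd1, hd2⟩ := hbd n hn
    refine ⟨hb, hc, hd1, hd2, ha.2, hd.mono ?_ ?_⟩
    · rw [← Real.rpow_natCast]
      exact Real.rpow_le_rpow_of_exponent_le hXr hs2
    · rw [Real.rpow_neg hX0r.le, Real.rpow_natCast]
  have hcard := Finset.card_le_mul_card_image_of_maps_to hmaps L hfib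
  rw [Finset.card_range] at hcard
  have hN2 : (N : ℝ) ≤ 2 * (b - a) * (X : ℝ) ^ ε + 1 := by
    have h1 : (⌊(b - a) * J⌋₊ : ℝ) ≤ (b - a) * J := Nat.floor_le (by positivity)
    have h2 : (b - a) * (J : ℝ) ≤ (b - a) * (2 * (X : ℝ) ^ ε) :=
      mul_le_mul_of_nonneg_left hJ2 hba
    rw [hN]
    push_cast
    linarith
  have h5 : (S.card : ℝ) ≤ L * N := by exact_mod_cast hcard
  have h6 : (L : ℝ) * N ≤ L * (2 * (b - a) * (X : ℝ) ^ ε + 1) := mul_le_mul_of_nonneg_left hN2 hL0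
  have h7 : (0 : ℝ) ≤ (2 * (X0 : ℝ) + 1) * (X0 + 1) * (X : ℝ) ^ ε := by positivity
  have h8 : (L : ℝ) * 1 ≤ L * (X : ℝ) ^ ε := mul_le_mul_of_nonneg_left hXε hL0
  calc (S.card : ℝ) ≤ L * (2 * (b - a) * (X : ℝ) ^ ε + 1) := h5.trans h6
    _ = L * (2 * (b - a)) * (X : ℝ) ^ ε + L * 1 := by ring
    _ ≤ L * (2 * (b - a)) * (X : ℝ) ^ ε + L * (X : ℝ) ^ ε := by linarith
    _ ≤ (L * (2 * (b - a) + 2) + (2 * X0 + 1) * (X0 + 1) + 1) * (X : ℝ) ^ ε := by
        have : 0 ≤ (L : ℝ) * (X : ℝ) ^ ε := by positivity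
        nlinarith

end Pool.Agent.X142.AN
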