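import Mathlib
import Pool.Agent.X142.AN.Short

/-!
# Transcendence of fast growing analytic functions
-/

set_option autoImplicit false

namespace Pool.Agent.X142.AN

open Polynomial Filter Topology

/-- `f` is algebraic over `ℝ(x)` on `s` -/
def Alg (f : ℝ → ℝ) (s : Set ℝ) : Prop :=
  ∃ P : ℝ[X][X], P ≠ 0 ∧ ∀ y ∈ s, eval₂ (evalRingHom y) (f y) P = 0

lemma Alg.mono {f : ℝ → ℝ} {s t : Set ℝ} (h : Alg f s) (hts : t ⊆ s) : Alg f t := by
  obtain ⟨P, hP, h⟩ := h
  exact ⟨P, hP, fun y hy => h y (hts hy)⟩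

lemma Alg.congr {f g : ℝ → ℝ} {s : Set ℝ} (h : Alg f s) (hfg : ∀ y ∈ s, f y = g y) : Alg g s := by
  obtain ⟨P, hP, h⟩ := h
  exact ⟨P, hP, fun y hy => by rw [← hfg y hy]; exact h y hy⟩

lemma transc_of_not_alg {f : ℝ → ℝ} {a b : ℝ} (h : ¬ Alg f (Set.Icc a b)) : Transc f a b := by
  classical
  intro D c hc
  set P : ℝ[X][X] := ∑ q : Fin (D + 1) × Fin (D + 1), C (C (c q) * X ^ (q.1 : ℕ)) * X ^ (q.2 : ℕ)
    with hP
  have hP0 : P = 0 := by
    by_contra hne
    apply h
    refine ⟨P, hne, fun y hy => ?_⟩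
    rw [hP, eval₂_finsetSum, ← hc y hy]
    refine Finset.sum_congr rfl fun q _ => ?_
    rw [eval₂_mul, eval₂_C, eval₂_pow, eval₂_X]
    simp [mon]
    ring
  funext q
  have h1 : (P.coeff (q.2 : ℕ)).coeff (q.1 : ℕ) = c q := by
    rw [hP, finsetSum_coeff, finsetSum_coeff]
    rw [Finset.sum_eq_single q]
    · rw [coeff_C_mul, coeff_X_pow, if_pos rfl, mul_one, coeff_C_mul, coeff_X_pow, if_pos rfl,
        mul_one]
    · intro r _ hr
      rw [coeff_C_mul, coeff_X_pow]
      split_ifs with h2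
      · rw [mul_one, coeff_C_mul, coeff_X_pow]
        split_ifs with h3
        · exact absurd (Prod.ext (Fin.ext h3.symm) (Fin.ext h2.symm)) hr
        · simp
      · simp
    · intro h2
      exact absurd (Finset.mem_univ q) h2
  rw [← h1, hP0]
  simp

lemma Alg.extend {f : ℝ → ℝ} {U : Set ℝ} (hU : IsPreconnected U) (hf : AnalyticOnNhd ℝ f U)
    {a b : ℝ} (hab : a < b) (hsub : Set.Icc a b ⊆ U) (h : Alg f (Set.Icc a b)) : Alg f U := by
  obtain ⟨P, hP, h⟩ := h
  refine ⟨P, hP, ?_⟩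
  have han : AnalyticOnNhd ℝ (fun y => eval₂ (evalRingHom y) (f y) P) U := by
    intro y hy
    have h1 : (fun y => eval₂ (evalRingHom y) (f y) P) =
        fun y => ∑ i ∈ Finset.range (P.natDegree + 1), eval y (P.coeff i) * f y ^ i := by
      funext y
      rw [eval₂_eq_sum_range]
      rfl
    rw [h1]
    exact Finset.analyticAt_fun_sum _ fun i _ =>
      (AnalyticOnNhd.eval_polynomial (P.coeff i) y (Set.mem_univ y)).mul ((hf y hy).pow i)
  have hmid : (a + b) / 2 ∈ Set.Ioo a b := ⟨by linarith, by linarith⟩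
  have hev : (fun y => eval₂ (evalRingHom y) (f y) P) =ᶠ[𝓝 ((a + b) / 2)] 0 := by
    filter_upwards [Icc_mem_nhds hmid.1 hmid.2] with y hy using h y hy
  exact han.eqOn_zero_of_preconnected_of_eventuallyEq_zero hU
    (hsub (Set.Ioo_subset_Icc_self hmid)) hev

lemma Alg.inv {f : ℝ → ℝ} {s : Set ℝ} (h : Alg f s) (hf : ∀ y ∈ s, f y ≠ 0) :
    Alg (fun y => (f y)⁻¹) s := by
  obtain ⟨P, hP, h⟩ := h
  refine ⟨P.reverse, by rwa [Ne, reverse_eq_zero], fun y hy => ?_⟩
  let _ : Invertible (f y) := invertibleOfNonzero (hf y hy)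
  have h1 := (eval₂_reverse_eq_zero_iff (evalRingHom y) (f y) P).2 (h y hy)
  rwa [invOf_eq_inv] at h1

lemma Alg.add_const {f : ℝ → ℝ} {s : Set ℝ} (h : Alg f s) (L : ℝ) :
    Alg (fun y => f y + L) s := by
  obtain ⟨P, hP, h⟩ := h
  refine ⟨P.comp (X - C (C L)), ?_, fun y hy => ?_⟩
  · rw [Ne, comp_eq_zero_iff]
    rintro (h1 | ⟨_, h2⟩)
    · exact hP h1
    · have h3 := congrArg natDegree h2
      rw [natDegree_X_sub_C, natDegree_C] at h3
      exact one_ne_zero h3
  · rw [eval₂_comp]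
    have h1 : eval₂ (evalRingHom y) (f y + L) (X - C (C L)) = f y := by
      rw [eval₂_sub, eval₂_X, eval₂_C]
      simp
    rw [h1]
    exact h y hy

lemma poly_bound (p : ℝ[X]) : ∃ (A : ℝ) (E : ℕ), 0 ≤ A ∧ ∀ y : ℝ, 1 ≤ y → |eval y p| ≤ A * y ^ E := by
  refine ⟨∑ i ∈ Finset.range (p.natDegree + 1), |p.coeff i|, p.natDegree,
    Finset.sum_nonneg fun i _ => abs_nonneg _, fun y hy => ?_⟩
  rw [eval_eq_sum_range, Finset.sum_mul]
  refine (Finset.abs_sum_le_sum_abs _ _).trans (Finset.sum_le_sum fun i hi => ?_)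
  rw [abs_mul, abs_of_pos (by positivity : 0 < y ^ i)]
  exact mul_le_mul_of_nonneg_left (pow_le_pow_right₀ hy (by
    have := Finset.mem_range.1 hi
    omega)) (abs_nonneg _)

lemma poly_lower (p : ℝ[X]) (hp : p ≠ 0) : ∃ δ : ℝ, 0 < δ ∧ ∀ᶠ y : ℝ in atTop, δ ≤ |eval y p| := by
  by_cases hdeg : 0 < p.degree
  · exact ⟨1, one_pos, (abs_tendsto_atTop p hdeg).eventually_ge_atTop 1⟩
  · push Not at hdeg
    rw [degree_le_zero_iff] at hdeg
    have h0 : p.coeff 0 ≠ 0 := by
      intro h0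
      apply hp
      rw [hdeg, h0, C_0]
    refine ⟨|p.coeff 0|, abs_pos.2 h0, Eventually.of_forall fun y => ?_⟩
    conv_rhs => rw [hdeg]
    rw [eval_C]

/-- a function which grows faster than every polynomial along a sequence tending to infinity is
transcendental -/
theorem not_alg_of_growth {f : ℝ → ℝ} {s : Set ℝ} (x : ℕ → ℝ) (hxs : ∀ n, x n ∈ s)
    (hx : Tendsto x atTop atTop)
    (hgr : ∀ m : ℕ, Tendsto (fun n => |f (x n)| / (x n) ^ m) atTop atTop) : ¬ Alg f s := by
  rintro ⟨P, hP, h⟩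
  set J := P.natDegree with hJ
  choose A E hA hAE using fun i : ℕ => poly_bound (P.coeff i)
  obtain ⟨δ, hδ, hlow⟩ := poly_lower P.leadingCoeff (leadingCoeff_ne_zero.2 hP)
  set A' : ℝ := ∑ i ∈ Finset.range J, A i with hA'
  set E' : ℕ := ∑ i ∈ Finset.range J, E i with hE'
  have hA'0 : 0 ≤ A' := Finset.sum_nonneg fun i _ => hA i
  have hev : ∀ᶠ n in atTop, 1 ≤ x n ∧ δ ≤ |eval (x n) P.leadingCoeff| ∧
      A' / δ + 1 ≤ |f (x n)| / (x n) ^ E' :=
    (hx.eventually_ge_atTop 1).and ((hx.eventually hlow).and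
      ((hgr E').eventually_ge_atTop (A' / δ + 1)))
  obtain ⟨n, hn1, hn2, hn3⟩ := hev.exists
  set y := x n with hy
  have h1 := h y (hxs n)
  rw [eval₂_eq_sum_range, Finset.sum_range_succ] at h1
  simp only [coe_evalRingHom] at h1
  have hyE : (1 : ℝ) ≤ y ^ E' := one_le_pow₀ hn1
  have hfy : (A' / δ + 1) * y ^ E' ≤ |f y| := by
    rwa [le_div_iff₀ (by positivity)] at hn3
  have hAδ : 0 ≤ A' / δ := by positivity
  have hf1 : 1 ≤ |f y| := by nlinarith
  have h2 : |∑ i ∈ Finset.range J, eval y (P.coeff i) * f y ^ i| * |f y| ≤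
      A' * y ^ E' * |f y| ^ J := by
    rw [hA', Finset.sum_mul, Finset.sum_mul]
    refine (mul_le_mul_of_nonneg_right (Finset.abs_sum_le_sum_abs _ _) (abs_nonneg _)).trans ?_
    rw [Finset.sum_mul]
    refine Finset.sum_le_sum fun i hi => ?_
    rw [abs_mul, abs_pow, mul_assoc, ← pow_succ]
    have h3 := hAE i y hn1
    have h4 : y ^ E i ≤ y ^ E' :=
      pow_le_pow_right₀ hn1 (Finset.single_le_sum (f := E) (fun _ _ => Nat.zero_le _) hi)
    have h5 : |f y| ^ (i + 1) ≤ |f y| ^ J :=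
      pow_le_pow_right₀ hf1 (by
        have := Finset.mem_range.1 hi
        omega)
    have h6 : |eval y (P.coeff i)| ≤ A i * y ^ E' :=
      h3.trans (mul_le_mul_of_nonneg_left h4 (hA i))
    exact mul_le_mul h6 h5 (by positivity) ((abs_nonneg _).trans h6)
  have h3 : |∑ i ∈ Finset.range J, eval y (P.coeff i) * f y ^ i| =
      |eval y P.leadingCoeff| * |f y| ^ J := by
    have h4 : ∑ i ∈ Finset.range J, eval y (P.coeff i) * f y ^ i =
        -(eval y P.leadingCoeff * f y ^ J) := by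
      have : eval y (P.coeff J) = eval y P.leadingCoeff := rfl
      rw [← this]
      linarith
    rw [h4, abs_neg, abs_mul, abs_pow]
  rw [h3] at h2
  have hfJ : 0 < |f y| ^ J := by positivity
  have h4 : δ * |f y| ≤ A' * y ^ E' := by
    have h5 : (δ * |f y|) * |f y| ^ J ≤ (A' * y ^ E') * |f y| ^ J := by
      calc (δ * |f y|) * |f y| ^ J = δ * |f y| ^ J * |f y| := by ring
        _ ≤ |eval y P.leadingCoeff| * |f y| ^ J * |f y| := by gcongr
        _ ≤ _ := h2
    exact le_of_mul_le_mul_right h5 hfJ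
  have h5 : δ * ((A' / δ + 1) * y ^ E') ≤ δ * |f y| := mul_le_mul_of_nonneg_left hfy hδ.le
  have h6 : δ * ((A' / δ + 1) * y ^ E') = A' * y ^ E' + δ * y ^ E' := by
    field_simp
  nlinarith

theorem transc_of_growth {U : Set ℝ} (hU : IsPreconnected U) {f : ℝ → ℝ}
    (hf : AnalyticOnNhd ℝ f U) (x : ℕ → ℝ) (hxs : ∀ n, x n ∈ U) (hx : Tendsto x atTop atTop)
    (hgr : ∀ m : ℕ, Tendsto (fun n => |f (x n)| / (x n) ^ m) atTop atTop)
    {a b : ℝ} (hab : a < b) (hsub : Set.Icc a b ⊆ U) : Transc f a b :=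
  transc_of_not_alg fun h => not_alg_of_growth x hxs hx hgr (h.extend hU hf hab hsub)

/-! ### The Gamma function -/

lemma analyticAt_Gamma {x : ℝ} (hx : 0 < x) : AnalyticAt ℝ Real.Gamma x := by
  have h1 : AnalyticAt ℂ Complex.Gamma (x : ℂ) := by
    have hopen : IsOpen {z : ℂ | 0 < z.re} := isOpen_lt continuous_const Complex.continuous_re
    have hd : DifferentiableOn ℂ Complex.Gamma {z : ℂ | 0 < z.re} := by
      intro z hz
      refine (Complex.differentiableAt_Gamma z fun m hm => ?_).differentiableWithinAt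
      have h2 : (0 : ℝ) < z.re := hz
      rw [hm] at h2
      simp at h2
      have : (0 : ℝ) ≤ m := Nat.cast_nonneg m
      linarith
    exact hd.analyticAt (hopen.mem_nhds (by simpa using hx))
  exact h1.re_ofReal

/-- `Γ(α x + β)` -/
lemma gamma_affine_analytic {α β : ℝ} {x : ℝ} (hx : 0 < α * x + β) :
    AnalyticAt ℝ (fun x => Real.Gamma (α * x + β)) x := by
  have h1 : AnalyticAt ℝ (fun x : ℝ => α * x + β) x :=
    (analyticAt_const.mul analyticAt_id).add analyticAt_const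
  exact (analyticAt_Gamma hx).comp_of_eq h1 rfl

lemma factorial_growth (α β : ℝ) (hα : 0 < α) (m : ℕ) :
    Tendsto (fun n : ℕ => (n.factorial : ℝ) / (((n : ℝ) + 1 - β) / α) ^ m) atTop atTop := by
  -- `n! ≥ K^n` eventually for every `K`, so `n!/((n+1-β)/α)^m → ∞`
  have h1 : Tendsto (fun n : ℕ => (Real.exp 1) ^ n / (n.factorial : ℝ)) atTop (𝓝 0) :=
    FloorSemiring.tendsto_pow_div_factorial_atTop _
  have h2 : Tendsto (fun n : ℕ => (((n : ℝ) + 1 - β) / α) ^ m / Real.exp ((n : ℝ) + 1 - β))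
      atTop (𝓝 0) := by
    have h3 : Tendsto (fun y : ℝ => y ^ m / Real.exp y) atTop (𝓝 0) :=
      Real.tendsto_pow_mul_exp_neg_atTop_nhds_zero m |>.congr fun y => by
        rw [Real.exp_neg, div_eq_mul_inv]
    have h4 : Tendsto (fun n : ℕ => (n : ℝ) + 1 - β) atTop atTop :=
      tendsto_atTop_add_const_right _ (1 - β) tendsto_natCast_atTop_atTop |>.congr fun n => by ring
    have h5 := (h3.comp h4).const_mul ((1 / α) ^ m)
    rw [mul_zero] at h5
    refine h5.congr fun n => ?_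
    simp only [Function.comp]
    rw [div_pow, div_pow, one_pow]
    ring
  have h6 : Tendsto (fun n : ℕ => (((n : ℝ) + 1 - β) / α) ^ m / (n.factorial : ℝ)) atTop (𝓝 0) := by
    have h7 := (h1.mul h2).mul_const (Real.exp (1 - β))
    rw [mul_zero, zero_mul] at h7
    refine h7.congr fun n => ?_
    have h8 : Real.exp ((n : ℝ) + 1 - β) = Real.exp 1 ^ n * Real.exp (1 - β) := by
      rw [← Real.exp_nat_mul, ← Real.exp_add]
      congr 1
      ring
    rw [h8]
    have h9 : (0 : ℝ) < Real.exp 1 ^ n := by positivity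
    have h10 : 0 < Real.exp (1 - β) := Real.exp_pos _
    field_simp
  have h7 : ∀ᶠ n : ℕ in atTop, 0 < (((n : ℝ) + 1 - β) / α) ^ m / (n.factorial : ℝ) := by
    have h4 : Tendsto (fun n : ℕ => (n : ℝ) + 1 - β) atTop atTop :=
      tendsto_atTop_add_const_right _ (1 - β) tendsto_natCast_atTop_atTop |>.congr fun n => by ring
    filter_upwards [h4.eventually_gt_atTop 0] with n hn
    have : (0 : ℝ) < n.factorial := by exact_mod_cast n.factorial_pos
    positivity
  have h8 := tendsto_inv_nhdsGT_zero.comp (tendsto_nhdsWithin_iff.2 ⟨h6, h7⟩)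
  refine h8.congr fun n => ?_
  simp only [Function.comp, inv_div]

theorem gamma_transc {α β : ℝ} (hα : 0 < α) {a b : ℝ} (hab : a < b) (ha : 0 < α * a + β) :
    Transc (fun x => Real.Gamma (α * x + β)) a b := by
  have hsub : ∀ x ∈ Set.Ioi (-β / α), 0 < α * x + β := by
    intro x hx
    have h1 : -β / α < x := hx
    rw [div_lt_iff₀ hα] at h1
    linarith
  refine transc_of_growth (U := Set.Ioi (-β / α)) isPreconnected_Ioi
    (fun x hx => gamma_affine_analytic (hsub x hx))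
    (fun n => ((n : ℝ) + 1 - β) / α) (fun n => ?_) ?_ ?_ hab ?_
  · rw [Set.mem_Ioi, div_lt_div_iff_of_pos_right hα]
    have : (0 : ℝ) ≤ n := Nat.cast_nonneg n
    linarith
  · have h4 : Tendsto (fun n : ℕ => (n : ℝ) + 1 - β) atTop atTop :=
      tendsto_atTop_add_const_right _ (1 - β) tendsto_natCast_atTop_atTop |>.congr fun n => by ring
    exact h4.atTop_div_const hα
  · intro m
    refine (factorial_growth α β hα m).congr fun n => ?_
    have h1 : α * (((n : ℝ) + 1 - β) / α) + β = n + 1 := by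
      field_simp
      ring
    rw [h1, Real.Gamma_nat_eq_factorial, Nat.abs_cast]
  · intro x hx
    rw [Set.mem_Ioi, div_lt_iff₀ hα]
    have := mul_le_mul_of_nonneg_left hx.1 hα.le
    linarith

end Pool.Agent.X142.AN
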