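import Mathlib
import Pool.Agent.X142.AN.Count
import Pool.Agent.X142.AN.Growth

/-!
# Tuples of rational numbers with a near algebraic product of values
-/

set_option autoImplicit false

namespace Pool.Agent.X142.AN

open Polynomial Finset Pool.Agent.X142.DN

lemma NearAlg.up {d d' : ℕ} {H H' η η' ξ : ℝ} (h : NearAlg d H η ξ) (hd : d ≤ d') (hH : H ≤ H')
    (hη : η ≤ η') : NearAlg d' H' η' ξ := by
  obtain ⟨Q, h1, h2, h3, h4, h5⟩ := h
  exact ⟨Q, h1, h2, h3.trans hd, fun i => (h4 i).trans hH, h5.trans hη⟩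

/-- the rational numbers of height at most `X` -/
noncomputable def Rats (X : ℕ) : Finset ℚ :=
  (Finset.Icc (-(X : ℤ)) X ×ˢ Finset.range (X + 1)).image (fun p : ℤ × ℕ => (p.1 : ℚ) / p.2)

lemma mem_Rats {X : ℕ} {r : ℚ} (h1 : |(r.num : ℝ)| ≤ X) (h2 : r.den ≤ X) : r ∈ Rats X := by
  refine Finset.mem_image.2 ⟨(r.num, r.den), ?_, ?_⟩
  · rw [Finset.mem_product, Finset.mem_Icc, Finset.mem_range]
    rw [abs_le] at h1
    refine ⟨⟨?_, ?_⟩, by simp only; omega⟩
    · have := h1.1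
      simp only
      exact_mod_cast this
    · have := h1.2
      simp only
      exact_mod_cast this
  · exact Rat.num_div_den r

lemma card_Rats {X : ℕ} (hX : 1 ≤ X) : ((Rats X).card : ℝ) ≤ 6 * (X : ℝ) ^ 2 := by
  have h1 : (Rats X).card ≤ (2 * X + 1) * (X + 1) := by
    unfold Rats
    refine Finset.card_image_le.trans ?_
    rw [Finset.card_product, Int.card_Icc, Finset.card_range]
    apply Nat.mul_le_mul_right
    omega
  have h2 : (2 * X + 1) * (X + 1) ≤ 6 * X ^ 2 := by nlinarith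
  exact_mod_cast h1.trans h2

/-- Tuples with a near algebraic product: one transcendental coordinate suffices. -/
theorem tuples {ι : Type} [Fintype ι] [DecidableEq ι] (j : ι) (a b : ι → ℝ) (f : ι → ℝ → ℝ)
    (hab : ∀ i, a i ≤ b i) (hf : ∀ i, AnalyticOnNhd ℝ (f i) (Set.Icc (a i) (b i)))
    (hne : ∀ i, ∀ x ∈ Set.Icc (a i) (b i), f i x ≠ 0) (htr : Transc (f j) (a j) (b j))
    (d : ℕ) (c ε : ℝ) (hε : 0 < ε) :
    ∃ w C : ℝ, 0 ≤ w ∧ 0 < C ∧ ∀ X : ℕ, 1 ≤ X → ∀ lam : ℝ, (X : ℝ) ^ (-c) ≤ |lam| →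
      |lam| ≤ (X : ℝ) ^ c → ∀ S : Finset (ι → ℚ),
      (∀ r ∈ S, (∀ i, (r i : ℝ) ∈ Set.Icc (a i) (b i) ∧ |((r i).num : ℝ)| ≤ X ∧ (r i).den ≤ X) ∧
        NearAlg d ((X : ℝ) ^ c) ((X : ℝ) ^ (-w)) (lam * ∏ i, f i (r i))) →
      (S.card : ℝ) ≤ C * (X : ℝ) ^ (2 * ((Fintype.card ι : ℝ) - 1) + ε) := by
  classical
  -- bounds for the values
  have hV : ∀ i, ∃ V : ℝ, 1 ≤ V ∧ ∀ x ∈ Set.Icc (a i) (b i), V⁻¹ ≤ |f i x| ∧ |f i x| ≤ V := by
    intro i
    have hcont : ContinuousOn (f i) (Set.Icc (a i) (b i)) :=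
      fun x hx => (hf i x hx).continuousAt.continuousWithinAt
    obtain ⟨C1, hC1⟩ := isCompact_Icc.exists_bound_of_continuousOn hcont
    obtain ⟨C2, hC2⟩ := isCompact_Icc.exists_bound_of_continuousOn (hcont.inv₀ (hne i))
    refine ⟨max 1 (max C1 C2), le_max_left _ _, fun x hx => ⟨?_, ?_⟩⟩
    · have h1 := hC2 x hx
      rw [Real.norm_eq_abs, Pi.inv_apply, abs_inv] at h1
      have h2 : 0 < |f i x| := abs_pos.2 (hne i x hx)
      have h3 : |f i x|⁻¹ ≤ max 1 (max C1 C2) :=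
        h1.trans ((le_max_right _ _).trans (le_max_right _ _))
      exact inv_le_of_inv_le₀ h2 h3
    · exact (hC1 x hx).trans ((le_max_left _ _).trans (le_max_right _ _))
  choose V hV1 hVb using hV
  set W : ℝ := ∏ i ∈ Finset.univ.erase j, V i with hW
  have hW1 : 1 ≤ W := by
    rw [hW, ← Finset.prod_const_one (s := Finset.univ.erase j)]
    exact Finset.prod_le_prod (fun _ _ => zero_le_one) fun i _ => hV1 i
  set c1 : ℝ := Real.logb 2 W with hc1
  have hc10 : 0 ≤ c1 := Real.logb_nonneg (by norm_num) hW1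
  have hWc : W = 2 ^ c1 := (Real.rpow_logb (by norm_num) (by norm_num) (by linarith)).symm
  obtain ⟨w, C, hw, hC, h⟩ := count (hab j) (hf j) htr (d + 1) (by omega) (c + c1) ε hε
  set n : ℕ := Fintype.card ι with hn
  have hn1 : 1 ≤ n := Fintype.card_pos_iff.2 ⟨j⟩
  have hnr : (1 : ℝ) ≤ n := by exact_mod_cast hn1
  refine ⟨w, 6 ^ n * (C + 1), hw, by positivity, ?_⟩
  intro X hX lam hlam1 hlam2 S hS
  have hXr : (1 : ℝ) ≤ X := by exact_mod_cast hX
  have hX0 : (0 : ℝ) < X := by linarith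
  -- the fibres
  set π : (ι → ℚ) → ({i // i ≠ j} → ℚ) := fun r i => r i with hπ
  set T : Finset ({i // i ≠ j} → ℚ) := Fintype.piFinset fun _ => Rats X with hT
  have hmaps : ∀ r ∈ S, π r ∈ T := by
    intro r hr
    rw [hT, Fintype.mem_piFinset]
    intro i
    exact mem_Rats ((hS r hr).1 i).2.1 ((hS r hr).1 i).2.2
  have hcardT : (T.card : ℝ) ≤ (6 * (X : ℝ) ^ 2) ^ (n - 1) := by
    rw [hT, Fintype.card_piFinset, Finset.prod_const, Finset.card_univ]
    have h1 : Fintype.card {i // i ≠ j} = n - 1 := by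
      rw [hn, Fintype.card_subtype_compl, Fintype.card_subtype_eq]
    rw [h1]
    push_cast
    exact pow_le_pow_left₀ (Nat.cast_nonneg _) (card_Rats hX) _
  rcases Nat.lt_or_ge X 2 with hX2 | hX2
  · -- `X = 1`
    have hX1 : X = 1 := by omega
    subst hX1
    have h1 : S.card ≤ (Fintype.piFinset fun _ : ι => Rats 1).card := by
      refine Finset.card_le_card fun r hr => ?_
      rw [Fintype.mem_piFinset]
      intro i
      exact mem_Rats ((hS r hr).1 i).2.1 ((hS r hr).1 i).2.2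
    rw [Fintype.card_piFinset, Finset.prod_const, Finset.card_univ] at h1
    have h2 : (S.card : ℝ) ≤ ((Rats 1).card : ℝ) ^ n := by exact_mod_cast h1
    have h3 : ((Rats 1).card : ℝ) ^ n ≤ 6 ^ n := by
      have := card_Rats (X := 1) le_rfl
      simp only [Nat.cast_one, one_pow, mul_one] at this
      exact pow_le_pow_left₀ (Nat.cast_nonneg _) this _
    rw [Nat.cast_one, Real.one_rpow, mul_one]
    have h4 : (0 : ℝ) < 6 ^ n := by positivity
    nlinarith
  have hX2r : (2 : ℝ) ≤ X := by exact_mod_cast hX2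
  have hWX : W ≤ (X : ℝ) ^ c1 := by
    rw [hWc]
    exact Real.rpow_le_rpow (by norm_num) hX2r hc10
  have hfib : ∀ ρ ∈ T, ((S.filter fun r => π r = ρ).card : ℝ) ≤ C * (X : ℝ) ^ ε := by
    intro ρ hρ
    by_cases hemp : (S.filter fun r => π r = ρ) = ∅
    · rw [hemp, Finset.card_empty, Nat.cast_zero]
      positivity
    obtain ⟨r0, hr0⟩ := Finset.nonempty_iff_ne_empty.2 hemp
    obtain ⟨hr0S, hr0ρ⟩ := Finset.mem_filter.1 hr0
    set lam' : ℝ := lam * ∏ i ∈ Finset.univ.erase j, f i (r0 i) with hlam'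
    have hsame : ∀ r ∈ S.filter (fun r => π r = ρ), ∀ i, i ≠ j → r i = r0 i := by
      intro r hr i hi
      obtain ⟨_, hrρ⟩ := Finset.mem_filter.1 hr
      have h1 : π r ⟨i, hi⟩ = π r0 ⟨i, hi⟩ := by rw [hrρ, hr0ρ]
      exact h1
    have hprod : ∀ r ∈ S.filter (fun r => π r = ρ), lam * ∏ i, f i (r i) = lam' * f j (r j) := by
      intro r hr
      rw [← Finset.mul_prod_erase _ _ (Finset.mem_univ j), hlam']
      have h1 : ∏ i ∈ Finset.univ.erase j, f i (r i) = ∏ i ∈ Finset.univ.erase j, f i (r0 i) :=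
        Finset.prod_congr rfl fun i hi => by rw [hsame r hr i (Finset.ne_of_mem_erase hi)]
      rw [h1]
      ring
    have hPle : |∏ i ∈ Finset.univ.erase j, f i (r0 i)| ≤ W := by
      rw [Finset.abs_prod]
      exact Finset.prod_le_prod (fun _ _ => abs_nonneg _)
        fun i _ => (hVb i _ ((hS r0 hr0S).1 i).1).2
    have hPge : W⁻¹ ≤ |∏ i ∈ Finset.univ.erase j, f i (r0 i)| := by
      rw [Finset.abs_prod, hW, ← Finset.prod_inv_distrib]
      exact Finset.prod_le_prod (fun i _ => inv_nonneg.2 (by linarith [hV1 i]))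
        fun i _ => (hVb i _ ((hS r0 hr0S).1 i).1).1
    have hXc : 0 < (X : ℝ) ^ c := Real.rpow_pos_of_pos hX0 _
    have hXc' : 0 < (X : ℝ) ^ (-c) := Real.rpow_pos_of_pos hX0 _
    have hl1 : (X : ℝ) ^ (-(c + c1)) ≤ |lam'| := by
      rw [hlam', abs_mul, neg_add, Real.rpow_add hX0]
      refine mul_le_mul hlam1 ?_ (Real.rpow_nonneg hX0.le _) (abs_nonneg _)
      refine le_trans ?_ hPge
      rw [Real.rpow_neg hX0.le]
      exact inv_anti₀ (by linarith) hWX
    have hl2 : |lam'| ≤ (X : ℝ) ^ (c + c1) := by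
      rw [hlam', abs_mul, Real.rpow_add hX0]
      exact mul_le_mul hlam2 (hPle.trans hWX) (abs_nonneg _) hXc.le
    have h1 := h X hX lam' hl1 hl2 ((S.filter fun r => π r = ρ).image fun r => r j) (by
      intro t ht
      obtain ⟨r, hr, rfl⟩ := Finset.mem_image.1 ht
      obtain ⟨hrS, hrρ⟩ := Finset.mem_filter.1 hr
      obtain ⟨h1, h2⟩ := hS r hrS
      refine ⟨(h1 j).1, (h1 j).2.1, (h1 j).2.2, ?_⟩
      rw [hprod r hr] at h2
      exact NearAlg.up h2 (by omega) (Real.rpow_le_rpow_of_exponent_le hXr (by linarith)) le_rfl)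
    rwa [Finset.card_image_of_injOn] at h1
    intro r hr r' hr' heq
    funext i
    by_cases hi : i = j
    · subst hi
      exact heq
    · rw [hsame r hr i hi, hsame r' hr' i hi]
  have hcard : (S.card : ℝ) = ∑ ρ ∈ T, ((S.filter fun r => π r = ρ).card : ℝ) := by
    rw [← Nat.cast_sum]
    exact_mod_cast Finset.card_eq_sum_card_fiberwise hmaps
  rw [hcard]
  refine (Finset.sum_le_card_nsmul _ _ _ hfib).trans ?_
  rw [nsmul_eq_mul]
  have h1 : (X : ℝ) ^ (2 * ((n : ℝ) - 1) + ε) = ((X : ℝ) ^ 2) ^ (n - 1) * (X : ℝ) ^ ε := by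
    rw [Real.rpow_add hX0, ← pow_mul, ← Real.rpow_natCast (X : ℝ) (2 * (n - 1))]
    congr 2
    push_cast [Nat.cast_sub hn1]
    ring
  rw [h1]
  have h2 : (6 : ℝ) ^ (n - 1) ≤ 6 ^ n := pow_le_pow_right₀ (by norm_num) (by omega)
  calc (T.card : ℝ) * (C * (X : ℝ) ^ ε) ≤ (6 * (X : ℝ) ^ 2) ^ (n - 1) * (C * (X : ℝ) ^ ε) :=
        mul_le_mul_of_nonneg_right hcardT (by positivity)
    _ = 6 ^ (n - 1) * C * (((X : ℝ) ^ 2) ^ (n - 1) * (X : ℝ) ^ ε) := by
        rw [mul_pow]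
        ring
    _ ≤ 6 ^ n * (C + 1) * (((X : ℝ) ^ 2) ^ (n - 1) * (X : ℝ) ^ ε) := by
        apply mul_le_mul_of_nonneg_right _ (by positivity)
        exact mul_le_mul h2 (by linarith) hC.le (by positivity)

end Pool.Agent.X142.AN
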